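import Pool.Agent.H949.FH.Defs

set_option autoImplicit false

open MeasureTheory ProbabilityTheory Filter Topology
open scoped ENNReal Pointwise

namespace H949.FH

namespace CountAux

theorem card_le {T : ℕ → ℕ → ℝ} {g : ℕ → Prop} {a δ : ℝ} (ha : 0 < a) (hδ : 0 ≤ δ) (N : ℕ)
    (hsub : ∀ i j, i < j → j < N → g i → g j → T i N ≤ T i j + T j N)
    (hg : ∀ i k, i < k → k ≤ N → g i →
      (1 - δ) * ((k : ℝ) - i) * a ≤ T i k ∧ T i k ≤ (1 + δ) * ((k : ℝ) - i) * a)
    (S : Finset ℕ) (hS : ∀ j ∈ S, j + 1 < N ∧ g j ∧ g (j + 1) ∧ T j N ≤ T (j + 1) N) :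
    (S.card : ℝ) ≤ 2 * δ * N := by
  classical
  -- monotonicity
  have hmono : ∀ i j, i ≤ j → j < N → g i → g j →
      (1 + δ) * ((N : ℝ) - j) * a - T j N ≤ (1 + δ) * ((N : ℝ) - i) * a - T i N := by
    intro i j hij hjN hi hj
    rcases hij.eq_or_lt with h | h
    · rw [h]
    · have h1 := hsub i j h hjN hi hj
      have h2 := (hg i j h hjN.le hi).2
      have e : (1 + δ) * ((N : ℝ) - i) * a =
          (1 + δ) * ((N : ℝ) - j) * a + (1 + δ) * ((j : ℝ) - i) * a := by ring
      rw [e]
      linarith
  have key : ∀ n : ℕ, n ≤ N → ∀ i, g i → i < N → i ≤ N - n →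
      a * ((S.filter (fun j => N - n ≤ j)).card : ℝ) ≤ (1 + δ) * ((N : ℝ) - i) * a - T i N := by
    intro n
    induction n with
    | zero =>
      intro _ i hi hiN _
      have h0 : S.filter (fun j => N - 0 ≤ j) = ∅ := by
        rw [Finset.filter_eq_empty_iff]
        intro j hj h
        have := (hS j hj).1
        omega
      rw [h0, Finset.card_empty, Nat.cast_zero, mul_zero]
      have := (hg i N hiN le_rfl hi).2
      linarith
    | succ n ih =>
      intro hn i hi hiN hin
      have ih' := ih (by omega)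
      by_cases hl : N - (n + 1) ∈ S
      · obtain ⟨h1, h2, h3, h4⟩ := hS _ hl
        have e1 : N - n = N - (n + 1) + 1 := by omega
        have hcard : (S.filter (fun j => N - (n + 1) ≤ j)).card =
            (S.filter (fun j => N - n ≤ j)).card + 1 := by
          have e2 : S.filter (fun j => N - (n + 1) ≤ j) =
              insert (N - (n + 1)) (S.filter (fun j => N - n ≤ j)) := by
            ext j
            simp only [Finset.mem_filter, Finset.mem_insert]
            constructor
            · rintro ⟨hj1, hj2⟩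
              by_cases hj3 : j = N - (n + 1)
              · left; exact hj3
              · right; exact ⟨hj1, by omega⟩
            · rintro (hj | ⟨hj1, hj2⟩)
              · subst hj; exact ⟨hl, le_rfl⟩
              · exact ⟨hj1, by omega⟩
          rw [e2, Finset.card_insert_of_notMem]
          simp only [Finset.mem_filter, not_and]
          intro _
          omega
        have h5 := ih' (N - (n + 1) + 1) h3 h1 (by omega)
        have h6 := hmono i (N - (n + 1)) hin (by omega) hi h2
        rw [hcard]
        push_cast at h5 h6 ⊢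
        have h7 : a ≤ (1 + δ) * a := by nlinarith
        have e3 : (1 + δ) * ((N : ℝ) - ((N - (n + 1) : ℕ) : ℝ)) * a =
            (1 + δ) * ((N : ℝ) - (((N - (n + 1) : ℕ) : ℝ) + 1)) * a + (1 + δ) * a := by ring
        rw [e3] at h6
        linarith
      · have hcard : S.filter (fun j => N - (n + 1) ≤ j) = S.filter (fun j => N - n ≤ j) := by
          ext j
          simp only [Finset.mem_filter]
          constructor
          · rintro ⟨hj1, hj2⟩
            refine ⟨hj1, ?_⟩
            have : j ≠ N - (n + 1) := by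
              intro h
              rw [h] at hj1
              exact hl hj1
            omega
          · rintro ⟨hj1, hj2⟩
            exact ⟨hj1, by omega⟩
        rw [hcard]
        exact ih' i hi hiN (by omega)
  rcases S.eq_empty_or_nonempty with h | h
  · rw [h, Finset.card_empty, Nat.cast_zero]
    positivity
  · obtain ⟨m, hm, hmin⟩ : ∃ m ∈ S, ∀ j ∈ S, m ≤ j := ⟨S.min' h, S.min'_mem h, S.min'_le⟩
    obtain ⟨h1, h2, -, -⟩ := hS m hm
    have hk := key (N - m) (by omega) m h2 (by omega) (by omega)
    have hall : S.filter (fun j => N - (N - m) ≤ j) = S := by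
      rw [Finset.filter_eq_self]
      intro j hj
      have := hmin j hj
      omega
    rw [hall] at hk
    have h3 := (hg m N (by omega) le_rfl h2).1
    have h4 : a * (S.card : ℝ) ≤ a * (2 * δ * ((N : ℝ) - m)) := by
      have e : a * (2 * δ * ((N : ℝ) - m)) =
          (1 + δ) * ((N : ℝ) - m) * a - (1 - δ) * ((N : ℝ) - m) * a := by ring
      rw [e]
      linarith
    have h5 := le_of_mul_le_mul_left h4 ha
    have h6 : (0 : ℝ) ≤ 2 * δ * m := by positivity
    have e : 2 * δ * ((N : ℝ) - m) = 2 * δ * N - 2 * δ * m := by ring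
    rw [e] at h5
    linarith

end CountAux

/-- Counting lemma (deterministic). PROOF. For a good `i < N` put `f i = (1 + δ) a (N - i) - T i N`; by `hg` (with
`k = N`) `0 ≤ f i ≤ 2 δ a (N - i) ≤ 2 δ a N`. For good `i < j < N`: `f j ≤ f i`, since
`T i N ≤ T i j + T j N ≤ (1 + δ) (j - i) a + T j N` (`hsub`, `hg`). If `j`, `j + 1` are good and `T j N ≤ T (j + 1) N` (call `j` bad), then
`f j ≥ f (j + 1) + (1 + δ) a`. Hence, with `b` the number of bad `j`, `b (1 + δ) a ≤ f (first bad index) ≤ 2 δ a N` (downward
induction). Then divide by `(1 + δ) a ≥ a`. -/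
theorem count {T : ℕ → ℕ → ℝ} {g : ℕ → Prop} [DecidablePred g] {a δ : ℝ} (ha : 0 < a) (hδ : 0 ≤ δ) (N : ℕ)
    (hsub : ∀ i j, i < j → j < N → g i → g j → T i N ≤ T i j + T j N)
    (hg : ∀ i k, i < k → k ≤ N → g i →
      (1 - δ) * ((k : ℝ) - i) * a ≤ T i k ∧ T i k ≤ (1 + δ) * ((k : ℝ) - i) * a) :
    (((Finset.range (N - 1)).filter
      (fun j => g j ∧ g (j + 1) ∧ T j N ≤ T (j + 1) N)).card : ℝ) ≤ 2 * δ * N := by
  apply CountAux.card_le ha hδ N hsub hg
  intro j hj
  rw [Finset.mem_filter, Finset.mem_range] at hj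
  exact ⟨by omega, hj.2⟩

end H949.FH
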