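import Pool.Agent.H949.FH.Defs
import Pool.Agent.H949.FH.Count
set_option autoImplicit false

open MeasureTheory ProbabilityTheory Filter Topology
open scoped ENNReal Pointwise

namespace H949.FH

namespace OD

section

variable {Ω : Type*} {T : ℤ → ℤ → Ω → ℝ≥0∞} {O : ℤ → Set Ω} {ε μ : ℝ} {m : ℕ}

/-- good at `i` -/
def Gd {Ω : Type*} (T : ℤ → ℤ → Ω → ℝ≥0∞) (O : ℤ → Set Ω) (ε μ : ℝ) (m : ℕ) (i : ℤ) : Set Ω :=
  {ω | ω ∈ O i ∧ ∀ k : ℕ, 1 ≤ k →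
    ENNReal.ofReal ((1 - ε) * ((k * m : ℕ) : ℝ) * μ) ≤ T i (i + ((k * m : ℕ) : ℤ)) ω ∧
    T i (i + ((k * m : ℕ) : ℤ)) ω ≤ ENNReal.ofReal ((1 + ε) * ((k * m : ℕ) : ℝ) * μ)}

theorem Gd_meas [MeasurableSpace Ω] (hT : ∀ i k, Measurable (T i k))
    (hO : ∀ i, MeasurableSet (O i)) (i : ℤ) : MeasurableSet (Gd T O ε μ m i) := by
  have e : Gd T O ε μ m i = O i ∩ ⋂ (k : ℕ) (_ : 1 ≤ k),
      ({ω | ENNReal.ofReal ((1 - ε) * ((k * m : ℕ) : ℝ) * μ) ≤ T i (i + ((k * m : ℕ) : ℤ)) ω} ∩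
      {ω | T i (i + ((k * m : ℕ) : ℤ)) ω ≤ ENNReal.ofReal ((1 + ε) * ((k * m : ℕ) : ℝ) * μ)}) := by
    ext ω
    constructor
    · rintro ⟨h1, h2⟩
      exact ⟨h1, Set.mem_iInter.2 fun k => Set.mem_iInter.2 fun hk => h2 k hk⟩
    · rintro ⟨h1, h2⟩
      exact ⟨h1, fun k hk => Set.mem_iInter.1 (Set.mem_iInter.1 h2 k) hk⟩
  rw [e]
  refine (hO i).inter ?_
  refine MeasurableSet.iInter fun k => MeasurableSet.iInter fun _ => MeasurableSet.inter ?_ ?_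
  · exact measurableSet_le measurable_const (hT _ _)
  · exact measurableSet_le (hT _ _) measurable_const

theorem Gd_shift {θ : ℤ → Ω → Ω} (hshift : ∀ n i k ω, T i k (θ n ω) = T (i + n) (k + n) ω)
    (hOs : ∀ n i ω, θ n ω ∈ O i ↔ ω ∈ O (i + n)) (n i : ℤ) (ω : Ω) :
    θ n ω ∈ Gd T O ε μ m i ↔ ω ∈ Gd T O ε μ m (i + n) := by
  unfold Gd
  simp only [Set.mem_ofPred_eq, hOs, hshift]
  have h : ∀ k : ℕ, i + ((k * m : ℕ) : ℤ) + n = i + n + ((k * m : ℕ) : ℤ) := fun k => by ring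
  simp only [h]

/-- bad from `M` on -/
def Bd {Ω : Type*} (T : ℤ → ℤ → Ω → ℝ≥0∞) (O : ℤ → Set Ω) (ε μ : ℝ) (M : ℕ) : Set Ω :=
  {ω | ω ∈ O 0 ∧ ∃ n : ℕ, M ≤ n ∧ ¬ (ENNReal.ofReal ((1 - ε) * (n : ℝ) * μ) ≤ T 0 (n : ℤ) ω ∧
    T 0 (n : ℤ) ω ≤ ENNReal.ofReal ((1 + ε) * (n : ℝ) * μ))}

theorem Bd_meas [MeasurableSpace Ω] (hT : ∀ i k, Measurable (T i k))
    (hO : ∀ i, MeasurableSet (O i)) (M : ℕ) : MeasurableSet (Bd T O ε μ M) := by
  have e : Bd T O ε μ M = O 0 ∩ ⋃ (n : ℕ) (_ : M ≤ n),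
      ({ω | ENNReal.ofReal ((1 - ε) * (n : ℝ) * μ) ≤ T 0 (n : ℤ) ω} ∩
      {ω | T 0 (n : ℤ) ω ≤ ENNReal.ofReal ((1 + ε) * (n : ℝ) * μ)})ᶜ := by
    ext ω
    constructor
    · rintro ⟨h1, n, h2, h3⟩
      exact ⟨h1, Set.mem_iUnion.2 ⟨n, Set.mem_iUnion.2 ⟨h2, h3⟩⟩⟩
    · rintro ⟨h1, h2⟩
      obtain ⟨n, h3⟩ := Set.mem_iUnion.1 h2
      obtain ⟨h4, h5⟩ := Set.mem_iUnion.1 h3
      exact ⟨h1, n, h4, h5⟩
  rw [e]
  refine (hO 0).inter ?_
  refine MeasurableSet.iUnion fun n => MeasurableSet.iUnion fun _ => MeasurableSet.compl ?_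
  refine MeasurableSet.inter ?_ ?_
  · exact measurableSet_le measurable_const (hT _ _)
  · exact measurableSet_le (hT _ _) measurable_const

theorem Bd_anti : Antitone (Bd T O ε μ) := by
  intro M M' h ω hω
  obtain ⟨h1, n, h2, h3⟩ := hω
  exact ⟨h1, n, h.trans h2, h3⟩

theorem Bd_small [MeasurableSpace Ω] (P : Measure Ω) [IsProbabilityMeasure P]
    (hT : ∀ i k, Measurable (T i k)) (hO : ∀ i, MeasurableSet (O i)) (hε : 0 < ε)
    (hlim : ∀ᵐ ω ∂P, ω ∈ O 0 → ∀ δ : ℝ, 0 < δ → ∃ K : ℕ, ∀ k : ℕ, K ≤ k →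
      ENNReal.ofReal ((1 - δ) * k * μ) ≤ T 0 k ω ∧ T 0 k ω ≤ ENNReal.ofReal ((1 + δ) * k * μ)) :
    ∃ M : ℕ, P (Bd T O ε μ M) ≤ ENNReal.ofReal (ε / 2) := by
  have h1 := tendsto_measure_iInter_atTop (μ := P) (s := Bd T O ε μ)
    (fun M => (Bd_meas hT hO M).nullMeasurableSet) Bd_anti ⟨0, measure_ne_top _ _⟩
  have h2 : P (⋂ M, Bd T O ε μ M) = 0 := by
    rw [measure_eq_zero_iff_ae_notMem]
    filter_upwards [hlim] with ω hω hmem
    rw [Set.mem_iInter] at hmem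
    obtain ⟨K, hK⟩ := hω (hmem 0).1 ε hε
    obtain ⟨-, n, h3, h4⟩ := hmem K
    exact h4 (hK n h3)
  rw [h2] at h1
  have h3 : ∀ᶠ M in atTop, (P ∘ Bd T O ε μ) M < ENNReal.ofReal (ε / 2) :=
    h1.eventually_lt_const (by rw [ENNReal.ofReal_pos]; linarith)
  obtain ⟨M, hM⟩ := h3.exists
  exact ⟨M, hM.le⟩

theorem Gd_fin {i : ℤ} {ω : Ω} (h : ω ∈ Gd T O ε μ m i) {k : ℕ} (hk : 1 ≤ k) :
    T i (i + ((k * m : ℕ) : ℤ)) ω ≠ ∞ :=
  ((h.2 k hk).2.trans_lt ENNReal.ofReal_lt_top).ne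

theorem cast_eq (m : ℕ) {i k : ℕ} (h : i < k) :
    ((i * m : ℕ) : ℤ) + (((k - i) * m : ℕ) : ℤ) = ((k * m : ℕ) : ℤ) := by
  rw [← Nat.cast_add, ← add_mul, Nat.add_sub_cancel' h.le]

open Classical in
/-- the deterministic count at a point -/
theorem pt_count (hm : 1 ≤ m) (hμ : 0 < μ) (hε : 0 < ε)
    (hsub : ∀ i j k ω, T i k ω ≤ T i j ω + T j k ω) (N : ℕ) (ω : Ω) :
    (((Finset.range (N - 1)).filter (fun j : ℕ =>
      ω ∈ Gd T O ε μ m ((j * m : ℕ) : ℤ) ∩ Gd T O ε μ m (((j + 1) * m : ℕ) : ℤ) ∩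
        {ω | T ((j * m : ℕ) : ℤ) ((N * m : ℕ) : ℤ) ω ≤
          T (((j + 1) * m : ℕ) : ℤ) ((N * m : ℕ) : ℤ) ω})).card : ℝ) ≤ 2 * ε * N := by
  have hmR : (0 : ℝ) < m := by exact_mod_cast hm
  have hfin : ∀ i k : ℕ, i < k → ω ∈ Gd T O ε μ m ((i * m : ℕ) : ℤ) →
      T ((i * m : ℕ) : ℤ) ((k * m : ℕ) : ℤ) ω ≠ ∞ := by
    intro i k hik hi
    have := Gd_fin hi (k := k - i) (by omega)
    rwa [cast_eq m hik] at this
  have h1 := count (T := fun i k => (T ((i * m : ℕ) : ℤ) ((k * m : ℕ) : ℤ) ω).toReal)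
    (g := fun i => ω ∈ Gd T O ε μ m ((i * m : ℕ) : ℤ)) (a := m * μ) (δ := ε) (mul_pos hmR hμ)
    hε.le N ?_ ?_
  · refine le_trans ?_ h1
    refine Nat.cast_le.2 (Finset.card_le_card ?_)
    intro j hj
    rw [Finset.mem_filter] at hj ⊢
    obtain ⟨hj1, ⟨hj2, hj3⟩, hj4⟩ := hj
    rw [Finset.mem_range] at hj1
    exact ⟨Finset.mem_range.2 hj1, hj2, hj3,
      ENNReal.toReal_mono (hfin (j + 1) N (by omega) hj3) hj4⟩
  · intro i j hij hjN hi hj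
    have h2 := hfin i j hij hi
    have h3 := hfin j N hjN hj
    rw [← ENNReal.toReal_add h2 h3]
    exact ENNReal.toReal_mono (ENNReal.add_ne_top.2 ⟨h2, h3⟩) (hsub _ _ _ _)
  · intro i k hik hkN hi
    obtain ⟨h2, h3⟩ := hi.2 (k - i) (by omega)
    rw [cast_eq m hik] at h2 h3
    have h4 := hfin i k hik hi
    have hki : (0 : ℝ) < (k : ℝ) - i := by
      have : (i : ℝ) < k := by exact_mod_cast hik
      linarith
    have e : (((k - i) * m : ℕ) : ℝ) = ((k : ℝ) - i) * m := by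
      rw [Nat.cast_mul, Nat.cast_sub hik.le]
    rw [e] at h2 h3
    constructor
    · have h5 := (ENNReal.ofReal_le_iff_le_toReal h4).1 h2
      linarith
    · have h6 : 0 ≤ (1 + ε) * (((k : ℝ) - i) * m) * μ := by positivity
      have h5 := ENNReal.toReal_le_of_le_ofReal h6 h3
      linarith

end

end OD

open OD in
/-- PROOF. Let `0 < ε ≤ 1 / 2` with `4 ε ≤ δ`. For `m ≥ 1` and `j : ℤ` let `G m j` be the set of `ω ∈ O (j m)` with
`ofReal ((1 - ε) k m μ) ≤ T (j m) ((j + k) m) ω ≤ ofReal ((1 + ε) k m μ)` for all `k ≥ 1`. By `hlim` almost every `ω ∈ O 0` is in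
`G m 0` for all large `m` (all `m ≥ max K 1`), so `P (O 0 \ G m 0) → 0`; choose `M` with `P (O 0 \ G m 0) ≤ ε / 2` for `m ≥ M`
(e.g. the sets `{ω ∈ O 0 | ∃ n ≥ M, n ≥ 1, the two bounds fail at n}` decrease to a null set). `G m j` is the preimage of `G m 0` under
`θ (j m)` (`hshift`, `hOs`), the same probabilities. Fix `m ≥ M` and `N`. For each `ω` apply `count` to
`T' i k = (T (i m) (k m) ω).toReal`, `g i = (ω ∈ G m i)`, `a = m μ`, `δ = ε` (all the values `T' i k` with `g i`, `i < k` are finite; `hsub`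
for reals from the finite values): the number of `j < N - 1` with `ω ∈ G m j ∩ G m (j + 1)` and
`T (j m) (N m) ω ≤ T ((j + 1) m) (N m) ω` is at most `2 ε N`. Integrate over `ω`: the sum over `j < N - 1` of
`P (G m j ∩ G m (j + 1) ∩ {T (j m) (N m) ≤ T ((j + 1) m) (N m)})` is at most `2 ε N`. By `θ (j m)` the `j`-th term is
`P (G m 0 ∩ G m 1 ∩ {T 0 ((N - j) m) ≤ T m ((N - j) m)})`, with `k = N - j` in `[2, N]`, and
`P (O 0 ∩ O m ∩ {..}) ≤ P (G m 0 ∩ G m 1 ∩ {..}) + P (O 0 \ G m 0) + P (O m \ G m 1)`, the last two at most `ε / 2` each. Total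
`≤ 2 ε N + ε N ≤ δ N`. -/
theorem one_dir {Ω : Type*} [MeasurableSpace Ω] (P : Measure Ω) [IsProbabilityMeasure P]
    (θ : ℤ → Ω → Ω) (hθ : ∀ n, MeasurePreserving (θ n) P P)
    (T : ℤ → ℤ → Ω → ℝ≥0∞) (hT : ∀ i k, Measurable (T i k))
    (O : ℤ → Set Ω) (hO : ∀ i, MeasurableSet (O i))
    (hsub : ∀ i j k ω, T i k ω ≤ T i j ω + T j k ω)
    (hshift : ∀ n i k ω, T i k (θ n ω) = T (i + n) (k + n) ω)
    (hOs : ∀ n i ω, θ n ω ∈ O i ↔ ω ∈ O (i + n)) {μ : ℝ} (hμ : 0 < μ)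
    (hlim : ∀ᵐ ω ∂P, ω ∈ O 0 → ∀ δ : ℝ, 0 < δ → ∃ K : ℕ, ∀ k : ℕ, K ≤ k →
      ENNReal.ofReal ((1 - δ) * k * μ) ≤ T 0 k ω ∧ T 0 k ω ≤ ENNReal.ofReal ((1 + δ) * k * μ)) :
    ∀ δ : ℝ, 0 < δ → ∃ M : ℕ, 1 ≤ M ∧ ∀ m : ℕ, M ≤ m → ∀ N : ℕ,
      ∑ k ∈ Finset.Icc 2 N, (P (O 0 ∩ O m ∩
        {ω | T 0 ((k * m : ℕ) : ℤ) ω ≤ T m ((k * m : ℕ) : ℤ) ω})).toReal ≤ δ * N := by
  classical
  intro δ hδ
  obtain ⟨ε, hε, hεδ⟩ : ∃ ε : ℝ, 0 < ε ∧ 4 * ε ≤ δ := ⟨δ / 4, by linarith, by linarith⟩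
  obtain ⟨M, hM⟩ := Bd_small P hT hO hε hlim
  refine ⟨max M 1, le_max_right _ _, fun m hm N => ?_⟩
  have hmM : M ≤ m := (le_max_left _ _).trans hm
  have hm1 : 1 ≤ m := (le_max_right _ _).trans hm
  -- the two exceptional sets
  have hb0 : P (O 0 \ Gd T O ε μ m 0) ≤ ENNReal.ofReal (ε / 2) := by
    refine (measure_mono ?_).trans hM
    intro ω hω
    obtain ⟨h1, h2⟩ := hω
    refine ⟨h1, ?_⟩
    by_contra hcon
    push Not at hcon
    refine h2 ⟨h1, fun k hk => ?_⟩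
    have hkm : M ≤ k * m := hmM.trans (Nat.le_mul_of_pos_left m hk)
    rw [zero_add]
    exact hcon (k * m) hkm
  have hb1 : P (O m \ Gd T O ε μ m m) ≤ ENNReal.ofReal (ε / 2) := by
    have e : O m \ Gd T O ε μ m m = θ m ⁻¹' (O 0 \ Gd T O ε μ m 0) := by
      ext ω
      rw [Set.mem_preimage, Set.mem_sdiff, Set.mem_sdiff, hOs, Gd_shift hshift hOs, zero_add]
    rw [e, (hθ m).measure_preimage ((hO 0).diff (Gd_meas hT hO 0)).nullMeasurableSet]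
    exact hb0
  set A : ℕ → Set Ω := fun k => Gd T O ε μ m 0 ∩ Gd T O ε μ m m ∩
    {ω | T 0 ((k * m : ℕ) : ℤ) ω ≤ T m ((k * m : ℕ) : ℤ) ω} with hA
  have hAm : ∀ k, MeasurableSet (A k) := fun k =>
    ((Gd_meas hT hO 0).inter (Gd_meas hT hO m)).inter (measurableSet_le (hT _ _) (hT _ _))
  set D : ℕ → Set Ω := fun j => Gd T O ε μ m ((j * m : ℕ) : ℤ) ∩
    Gd T O ε μ m (((j + 1) * m : ℕ) : ℤ) ∩
        {ω | T ((j * m : ℕ) : ℤ) ((N * m : ℕ) : ℤ) ω ≤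
          T (((j + 1) * m : ℕ) : ℤ) ((N * m : ℕ) : ℤ) ω} with hD
  have hDm : ∀ j, MeasurableSet (D j) := fun j =>
    ((Gd_meas hT hO _).inter (Gd_meas hT hO _)).inter (measurableSet_le (hT _ _) (hT _ _))
  -- one term
  have hE : ∀ k, (P (O 0 ∩ O m ∩
      {ω | T 0 ((k * m : ℕ) : ℤ) ω ≤ T m ((k * m : ℕ) : ℤ) ω})).toReal ≤
        (P (A k)).toReal + ε := by
    intro k
    have h1 : P (O 0 ∩ O m ∩ {ω | T 0 ((k * m : ℕ) : ℤ) ω ≤ T m ((k * m : ℕ) : ℤ) ω}) ≤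
        P (A k) + (ENNReal.ofReal (ε / 2) + ENNReal.ofReal (ε / 2)) := by
      refine le_trans (measure_mono (t := A k ∪ ((O 0 \ Gd T O ε μ m 0) ∪
        (O m \ Gd T O ε μ m m))) ?_) ?_
      · intro ω hω
        obtain ⟨⟨h2, h3⟩, h4⟩ := hω
        by_cases h5 : ω ∈ Gd T O ε μ m 0
        · by_cases h6 : ω ∈ Gd T O ε μ m m
          · exact Or.inl ⟨⟨h5, h6⟩, h4⟩
          · exact Or.inr (Or.inr ⟨h3, h6⟩)
        · exact Or.inr (Or.inl ⟨h2, h5⟩)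
      · refine (measure_union_le _ _).trans (add_le_add le_rfl ?_)
        exact (measure_union_le _ _).trans (add_le_add hb0 hb1)
    rw [← ENNReal.ofReal_add (by linarith) (by linarith), add_halves] at h1
    have h2 := ENNReal.toReal_mono
      (ENNReal.add_ne_top.2 ⟨measure_ne_top _ _, ENNReal.ofReal_ne_top⟩) h1
    rwa [ENNReal.toReal_add (measure_ne_top _ _) ENNReal.ofReal_ne_top,
      ENNReal.toReal_ofReal hε.le] at h2
  -- shift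
  have hAD : ∀ j, j < N - 1 → P (D j) = P (A (N - j)) := by
    intro j hj
    have e : D j = θ ((j * m : ℕ) : ℤ) ⁻¹' (A (N - j)) := by
      ext ω
      have e1 : (m : ℤ) + ((j * m : ℕ) : ℤ) = (((j + 1) * m : ℕ) : ℤ) := by
        push_cast
        ring
      have e2 : (((N - j) * m : ℕ) : ℤ) + ((j * m : ℕ) : ℤ) = ((N * m : ℕ) : ℤ) := by
        rw [← Nat.cast_add, ← add_mul, Nat.sub_add_cancel (by omega)]
      rw [Set.mem_preimage]
      simp only [hA, hD, Set.mem_inter_iff, Set.mem_ofPred_eq, Gd_shift hshift hOs, hshift,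
        zero_add, e1, e2]
    rw [e, (hθ _).measure_preimage (hAm _).nullMeasurableSet]
  have hsumAD : ∑ k ∈ Finset.Icc 2 N, (P (A k)).toReal =
      ∑ j ∈ Finset.range (N - 1), (P (D j)).toReal := by
    refine Finset.sum_nbij' (fun k => N - k) (fun j => N - j) ?_ ?_ ?_ ?_ ?_
    · intro k hk
      rw [Finset.mem_Icc] at hk
      rw [Finset.mem_range]
      omega
    · intro j hj
      rw [Finset.mem_range] at hj
      rw [Finset.mem_Icc]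
      omega
    · intro k hk
      rw [Finset.mem_Icc] at hk
      omega
    · intro j hj
      rw [Finset.mem_range] at hj
      omega
    · intro k hk
      rw [Finset.mem_Icc] at hk
      rw [hAD (N - k) (by omega), Nat.sub_sub_self hk.2]
  -- the integral of the count
  have hint : ∑ j ∈ Finset.range (N - 1), P (D j) ≤ ENNReal.ofReal (2 * ε * N) := by
    have e1 : ∑ j ∈ Finset.range (N - 1), P (D j) =
        ∫⁻ ω, ∑ j ∈ Finset.range (N - 1), (D j).indicator 1 ω ∂P := by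
      rw [lintegral_finsetSum _ (fun j _ => measurable_one.indicator (hDm j))]
      exact Finset.sum_congr rfl fun j _ => (lintegral_indicator_one (hDm j)).symm
    rw [e1]
    have e2 : ∫⁻ _ω, ENNReal.ofReal (2 * ε * N) ∂P = ENNReal.ofReal (2 * ε * N) := by
      rw [lintegral_const, measure_univ, mul_one]
    rw [← e2]
    refine lintegral_mono fun ω => ?_
    have h1 := pt_count (O := O) hm1 hμ hε hsub N ω
    have h2 : ∑ j ∈ Finset.range (N - 1), (D j).indicator (1 : Ω → ℝ≥0∞) ω =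
        (((Finset.range (N - 1)).filter (fun j : ℕ => ω ∈ D j)).card : ℝ≥0∞) := by
      rw [Finset.card_filter]
      push_cast
      refine Finset.sum_congr rfl fun j _ => ?_
      by_cases hj : ω ∈ D j
      · rw [Set.indicator_of_mem hj, if_pos hj]
        rfl
      · rw [Set.indicator_of_notMem hj, if_neg hj]
    rw [h2, ← ENNReal.ofReal_natCast]
    exact ENNReal.ofReal_le_ofReal h1
  have hint' : ∑ j ∈ Finset.range (N - 1), (P (D j)).toReal ≤ 2 * ε * N := by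
    rw [← ENNReal.toReal_sum (fun j _ => measure_ne_top _ _)]
    exact ENNReal.toReal_le_of_le_ofReal (by positivity) hint
  calc ∑ k ∈ Finset.Icc 2 N, (P (O 0 ∩ O m ∩
        {ω | T 0 ((k * m : ℕ) : ℤ) ω ≤ T m ((k * m : ℕ) : ℤ) ω})).toReal
      ≤ ∑ k ∈ Finset.Icc 2 N, ((P (A k)).toReal + ε) := Finset.sum_le_sum fun k _ => hE k
    _ = ∑ j ∈ Finset.range (N - 1), (P (D j)).toReal + (Finset.Icc 2 N).card * ε := by
        rw [Finset.sum_add_distrib, hsumAD, Finset.sum_const, nsmul_eq_mul]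
    _ ≤ 2 * ε * N + N * ε := by
        refine add_le_add hint' (mul_le_mul_of_nonneg_right ?_ hε.le)
        rw [Nat.card_Icc]
        exact_mod_cast (by omega : N + 1 - 2 ≤ N)
    _ ≤ δ * N := by
        have hN : (0 : ℝ) ≤ N := Nat.cast_nonneg N
        nlinarith

end H949.FH
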