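import Pool.Agent.H949.FH.Defs
import Pool.Agent.H949.FH.OneDir
set_option autoImplicit false

open MeasureTheory ProbabilityTheory Filter Topology
open scoped ENNReal Pointwise

namespace H949.FH

theorem Arraux.lim {Ω : Type*} [MeasurableSpace Ω] (P : Measure Ω) [IsProbabilityMeasure P]
    (E : ℕ → Set Ω) (hE : ∀ k, MeasurableSet (E k)) {c : ℝ≥0∞}
    (hf : ∃ᶠ k in atTop, c ≤ P (E k)) : c ≤ P {ω | ∃ᶠ k in atTop, ω ∈ E k} := by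
  have h1 : {ω | ∃ᶠ k in atTop, ω ∈ E k} = ⋂ K : ℕ, ⋃ k ≥ K, E k := by
    ext ω
    simp only [Set.mem_ofPred_eq, Set.mem_iInter, Set.mem_iUnion, frequently_atTop, exists_prop]
  have h2 : Antitone (fun K : ℕ => ⋃ k ≥ K, E k) := by
    intro a b hab
    refine Set.iUnion₂_subset fun k hk => ?_
    exact Set.subset_iUnion₂_of_subset k (hab.trans hk) subset_rfl
  have h3 : Tendsto (fun K : ℕ => P (⋃ k ≥ K, E k)) atTop (𝓝 (P (⋂ K : ℕ, ⋃ k ≥ K, E k))) :=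
    tendsto_measure_iInter_atTop (fun K =>
      (MeasurableSet.biUnion (Set.to_countable _) fun k _ => hE k).nullMeasurableSet) h2
      ⟨0, measure_ne_top _ _⟩
  rw [h1]
  refine ge_of_tendsto' h3 fun K => ?_
  obtain ⟨k, hk, hc⟩ := frequently_atTop.1 hf K
  exact hc.trans (measure_mono (Set.subset_iUnion₂_of_subset k hk subset_rfl))

theorem Arraux.freq {u u' : ℕ → ℝ} (hu : ∀ k, 0 ≤ u k) (hu' : ∀ k, 0 ≤ u' k) {q : ℝ} (hq : 0 < q)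
    (h1 : ∀ N : ℕ, ∑ k ∈ Finset.Icc 2 N, u k ≤ q / 16 * N)
    (h2 : ∀ N : ℕ, ∑ k ∈ Finset.Icc 2 N, u' (k - 1) ≤ q / 16 * N) :
    ∃ᶠ k in atTop, u k + u' k ≤ 3 / 4 * q := by
  rw [frequently_atTop]
  intro K
  by_contra hcon
  push Not at hcon
  have h3 : ∑ k ∈ Finset.Icc (K + 2) (2 * (K + 2)), (3 / 4 * q) ≤
      ∑ k ∈ Finset.Icc (K + 2) (2 * (K + 2)), (u k + u' k) :=
    Finset.sum_le_sum fun k hk => (hcon k (by rw [Finset.mem_Icc] at hk; omega)).le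
  rw [Finset.sum_const, Nat.card_Icc, Finset.sum_add_distrib] at h3
  have h4 : ∑ k ∈ Finset.Icc (K + 2) (2 * (K + 2)), u k ≤
      ∑ k ∈ Finset.Icc 2 (2 * (K + 2)), u k :=
    Finset.sum_le_sum_of_subset_of_nonneg (Finset.Icc_subset_Icc_left (by omega)) fun k _ _ => hu k
  have h5 : ∑ k ∈ Finset.Icc (K + 2) (2 * (K + 2)), u' k ≤
      ∑ k ∈ Finset.Icc 2 (2 * (K + 2) + 1), u' (k - 1) := by
    have e1 : ∑ k ∈ Finset.Icc (K + 2) (2 * (K + 2)), u' k =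
        ∑ k ∈ Finset.Icc (K + 2 + 1) (2 * (K + 2) + 1), u' (k - 1) := by
      rw [← Finset.map_add_right_Icc, Finset.sum_map]
      simp
    rw [e1]
    exact Finset.sum_le_sum_of_subset_of_nonneg (Finset.Icc_subset_Icc_left (by omega))
      fun k _ _ => hu' _
  have h6 := h1 (2 * (K + 2))
  have h7 := h2 (2 * (K + 2) + 1)
  have h8 : 2 * (K + 2) + 1 - (K + 2) = K + 3 := by omega
  rw [h8, nsmul_eq_mul] at h3
  push_cast at h3 h6 h7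
  have h9 : 0 ≤ (K : ℝ) * q := mul_nonneg (Nat.cast_nonneg K) hq.le
  nlinarith

/-- PROOF. Let `p = (P (O 0)).toReal > 0` and `δ = p ^ 4 / 16`. Apply `one_dir` to the data (direction `+`), and to
`T' i k = T (-i) (-k)`, `O' i = O (-i)`, `θ' n = θ (-n)`, `μ'` (direction `-`), get `M₁, M₂`, let `m = max M₁ M₂`. The second
gives `∑ k ∈ [2, N], P (O 0 ∩ O (-m) ∩ {T 0 (-k m) ≤ T (-m) (-k m)}) ≤ δ N`, and by `θ m` the `k`-th term is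
`P (O m ∩ O 0 ∩ {T m (-(k - 1) m) ≤ T 0 (-(k - 1) m)})`. With `C = O 0 ∩ O m`, `B k = {T m (k m) < T 0 (k m)}`,
`B' k = {T 0 (-k m) < T m (-k m)}` one gets `∑ k ∈ [2, N], (P (C \ B k) + P (C \ B' k)) ≤ 2 δ (N + 1)`. For
`k ≥ 2`: `P (C ∩ O (k m) ∩ O (-k m) ∩ B k ∩ B' k) ≥ p ^ 4 - P (C \ B k) - P (C \ B' k)` (`hind`). If this were less than
`p ^ 4 / 4` for all large `k`, then `P (C \ B k) + P (C \ B' k) > 3 p ^ 4 / 4` for all large `k`, and the sum up to `N` would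
exceed `(3 / 4) p ^ 4 (N - const)`, contradicting `≤ 2 δ (N + 1) = p ^ 4 (N + 1) / 8`. So infinitely many `k` have
probability at least `p ^ 4 / 4`; the set of `ω` which are in infinitely many of these events has probability at least
`p ^ 4 / 4` (decreasing intersection of the unions `⋃ k ≥ K`; continuity of `P` from above). For such `ω`, take `n = k m`. -/
theorem array {Ω : Type*} [MeasurableSpace Ω] (P : Measure Ω) [IsProbabilityMeasure P]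
    (θ : ℤ → Ω → Ω) (hθ : ∀ n, MeasurePreserving (θ n) P P)
    (T : ℤ → ℤ → Ω → ℝ≥0∞) (hT : ∀ i k, Measurable (T i k))
    (O : ℤ → Set Ω) (hO : ∀ i, MeasurableSet (O i))
    (hsub : ∀ i j k ω, T i k ω ≤ T i j ω + T j k ω)
    (hshift : ∀ n i k ω, T i k (θ n ω) = T (i + n) (k + n) ω)
    (hOs : ∀ n i ω, θ n ω ∈ O i ↔ ω ∈ O (i + n))
    (hind : ∀ m n : ℕ, 0 < m → m < n → P (O 0 ∩ O m ∩ O n ∩ O (-(n : ℤ))) = P (O 0) ^ 4)
    (hp : P (O 0) ≠ 0) {μ μ' : ℝ} (hμ : 0 < μ) (hμ' : 0 < μ')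
    (hlim : ∀ᵐ ω ∂P, ω ∈ O 0 → ∀ δ : ℝ, 0 < δ → ∃ K : ℕ, ∀ k : ℕ, K ≤ k →
      ENNReal.ofReal ((1 - δ) * k * μ) ≤ T 0 k ω ∧ T 0 k ω ≤ ENNReal.ofReal ((1 + δ) * k * μ))
    (hlim' : ∀ᵐ ω ∂P, ω ∈ O 0 → ∀ δ : ℝ, 0 < δ → ∃ K : ℕ, ∀ k : ℕ, K ≤ k →
      ENNReal.ofReal ((1 - δ) * k * μ') ≤ T 0 (-(k : ℤ)) ω ∧
        T 0 (-(k : ℤ)) ω ≤ ENNReal.ofReal ((1 + δ) * k * μ')) :
    ∃ m : ℕ, 0 < m ∧ 0 < P {ω | ω ∈ O 0 ∧ ω ∈ O m ∧
      (∃ᶠ n : ℕ in atTop, ω ∈ O n ∧ T m n ω < T 0 n ω) ∧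
      (∃ᶠ n : ℕ in atTop, ω ∈ O (-(n : ℤ)) ∧ T 0 (-(n : ℤ)) ω < T m (-(n : ℤ)) ω)} := by
  obtain ⟨p, hp'⟩ : ∃ p : ℝ, p = (P (O 0)).toReal := ⟨_, rfl⟩
  have hp0 : 0 < p := by
    rw [hp']
    exact ENNReal.toReal_pos hp (measure_ne_top _ _)
  have hδ : 0 < p ^ 4 / 16 := by positivity
  obtain ⟨M₁, hM₁, h1⟩ := one_dir P θ hθ T hT O hO hsub hshift hOs hμ hlim _ hδ
  obtain ⟨M₂, hM₂, h2⟩ := one_dir P (fun n => θ (-n)) (fun n => hθ (-n))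
    (fun i k => T (-i) (-k)) (fun i k => hT _ _) (fun i => O (-i)) (fun i => hO _)
    (fun i j k ω => hsub _ _ _ ω)
    (fun n i k ω => by rw [hshift, neg_add, neg_add])
    (fun n i ω => by rw [hOs, neg_add]) hμ' (by simpa only [neg_zero] using hlim') _ hδ
  obtain ⟨m, hm1, hm2⟩ : ∃ m, M₁ ≤ m ∧ M₂ ≤ m := ⟨max M₁ M₂, le_max_left _ _, le_max_right _ _⟩
  have hm : 0 < m := lt_of_lt_of_le hM₁ hm1
  refine ⟨m, hm, ?_⟩
  let A : ℕ → Set Ω := fun k => O 0 ∩ O m ∩ {ω | T 0 ((k * m : ℕ) : ℤ) ω ≤ T m ((k * m : ℕ) : ℤ) ω}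
  let A' : ℕ → Set Ω := fun k => O 0 ∩ O m ∩
    {ω | T m (-((k * m : ℕ) : ℤ)) ω ≤ T 0 (-((k * m : ℕ) : ℤ)) ω}
  have hu2 : ∀ N : ℕ, ∑ k ∈ Finset.Icc 2 N, (P (A' (k - 1))).toReal ≤ p ^ 4 / 16 * N := by
    intro N
    refine le_trans (le_of_eq (Finset.sum_congr rfl fun k hk => ?_)) (h2 m hm2 N)
    have hk1 : 2 ≤ k := (Finset.mem_Icc.1 hk).1
    have hS : MeasurableSet (O (-0) ∩ O (-(m : ℤ)) ∩
        {ω | T (-0) (-((k * m : ℕ) : ℤ)) ω ≤ T (-(m : ℤ)) (-((k * m : ℕ) : ℤ)) ω}) :=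
      ((hO _).inter (hO _)).inter (measurableSet_le (hT _ _) (hT _ _))
    have e0 := (hθ m).measure_preimage hS.nullMeasurableSet
    change _ = (P (O (-0) ∩ O (-(m : ℤ)) ∩
        {ω | T (-0) (-((k * m : ℕ) : ℤ)) ω ≤ T (-(m : ℤ)) (-((k * m : ℕ) : ℤ)) ω})).toReal
    rw [← e0]
    congr 2
    ext ω
    have e : -((k * m : ℕ) : ℤ) + m = -(((k - 1) * m : ℕ) : ℤ) := by
      obtain ⟨l, rfl⟩ := Nat.exists_eq_add_of_le hk1
      have e1 : 2 + l - 1 = l + 1 := by omega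
      rw [e1]
      push_cast
      ring
    change ω ∈ O 0 ∩ O m ∩
      {ω | T m (-(((k - 1) * m : ℕ) : ℤ)) ω ≤ T 0 (-(((k - 1) * m : ℕ) : ℤ)) ω} ↔ _
    simp only [Set.mem_preimage, Set.mem_inter_iff, Set.mem_ofPred_eq, hOs, hshift, e,
      neg_add_cancel, neg_zero, zero_add]
    tauto
  have hfr := Arraux.freq (fun k => ENNReal.toReal_nonneg) (fun k => ENNReal.toReal_nonneg)
    (u := fun k => (P (A k)).toReal) (u' := fun k => (P (A' k)).toReal) (q := p ^ 4)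
    (by positivity) (fun N => h1 m hm1 N) hu2
  let E : ℕ → Set Ω := fun k => O 0 ∩ O m ∩ O ((k * m : ℕ) : ℤ) ∩ O (-((k * m : ℕ) : ℤ)) ∩
    {ω | T m ((k * m : ℕ) : ℤ) ω < T 0 ((k * m : ℕ) : ℤ) ω} ∩
    {ω | T 0 (-((k * m : ℕ) : ℤ)) ω < T m (-((k * m : ℕ) : ℤ)) ω}
  have hE : ∀ k, MeasurableSet (E k) := fun k =>
    (((((hO _).inter (hO _)).inter (hO _)).inter (hO _)).inter
      (measurableSet_lt (hT _ _) (hT _ _))).inter (measurableSet_lt (hT _ _) (hT _ _))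
  have hEf : ∃ᶠ k in atTop, ENNReal.ofReal (p ^ 4 / 4) ≤ P (E k) := by
    refine (hfr.and_eventually (eventually_ge_atTop 2)).mono fun k hk => ?_
    obtain ⟨hk1, hk2⟩ := hk
    have e1 := hind m (k * m) hm (by nlinarith)
    have e2 : O 0 ∩ O m ∩ O ((k * m : ℕ) : ℤ) ∩ O (-((k * m : ℕ) : ℤ)) ⊆ E k ∪ (A k ∪ A' k) := by
      rintro ω ⟨⟨⟨ha, hb⟩, hc⟩, hd⟩
      by_cases h3 : T m ((k * m : ℕ) : ℤ) ω < T 0 ((k * m : ℕ) : ℤ) ω
      · by_cases h4 : T 0 (-((k * m : ℕ) : ℤ)) ω < T m (-((k * m : ℕ) : ℤ)) ω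
        · exact Or.inl ⟨⟨⟨⟨⟨ha, hb⟩, hc⟩, hd⟩, h3⟩, h4⟩
        · exact Or.inr (Or.inr ⟨⟨ha, hb⟩, not_lt.1 h4⟩)
      · exact Or.inr (Or.inl ⟨⟨ha, hb⟩, not_lt.1 h3⟩)
    have e3 : P (O 0) ^ 4 ≤ P (E k) + (P (A k) + P (A' k)) := by
      rw [← e1]
      exact (measure_mono e2).trans ((measure_union_le _ _).trans
        (add_le_add le_rfl (measure_union_le _ _)))
    have e4 : p ^ 4 ≤ (P (E k)).toReal + ((P (A k)).toReal + (P (A' k)).toReal) := by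
      have e5 := ENNReal.toReal_mono (by finiteness) e3
      rw [ENNReal.toReal_pow, ENNReal.toReal_add (by finiteness) (by finiteness),
        ENNReal.toReal_add (by finiteness) (by finiteness), ← hp'] at e5
      exact e5
    refine ENNReal.ofReal_le_of_le_toReal ?_
    linarith
  have hlm := Arraux.lim P E hE hEf
  refine lt_of_lt_of_le (ENNReal.ofReal_pos.2 (by positivity)) (hlm.trans (measure_mono ?_))
  intro ω hω
  have hω' : ∃ᶠ k in atTop, ω ∈ E k := hω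
  obtain ⟨k0, hk0⟩ := hω'.exists
  refine ⟨hk0.1.1.1.1.1, hk0.1.1.1.1.2, ?_, ?_⟩
  · rw [frequently_atTop] at hω' ⊢
    intro a
    obtain ⟨k, hk, hkE⟩ := hω' a
    exact ⟨k * m, le_trans hk (Nat.le_mul_of_pos_right k hm), hkE.1.1.1.2, hkE.1.2⟩
  · rw [frequently_atTop] at hω' ⊢
    intro a
    obtain ⟨k, hk, hkE⟩ := hω' a
    exact ⟨k * m, le_trans hk (Nat.le_mul_of_pos_right k hm), hkE.1.1.2, hkE.2⟩

end H949.FH
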