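import Pool.Agent.H949.FH.Defs

set_option autoImplicit false

open MeasureTheory ProbabilityTheory Filter Topology
open scoped ENNReal Pointwise

namespace H949.FH

/-- Reflection of a configuration at the origin. -/
def refl {d : ℕ} (ω : Config d) : Config d := fun x =>
  ((ω (-x)).1, fun i n => (((ω (-x)).2 i n).1, (((ω (-x)).2 i n).2.1, !((ω (-x)).2 i n).2.2)))

namespace ReflAux

variable {d : ℕ}

/-- Reflection of a jump. -/
def rj (p : Fin d × Bool) : Fin d × Bool := (p.1, !p.2)

/-- Reflection of a pair (holding time, jump). -/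
def rp (p : ℝ × (Fin d × Bool)) : ℝ × (Fin d × Bool) := (p.1, rj p.2)

/-- Reflection of a path. -/
def rw' (w : Path d) : Path d := fun n => rp (w n)

/-- Reflection of a cell. -/
def rc (s : Cell d) : Cell d := (s.1, fun i => rw' (s.2 i))

theorem stp_rj (p : Fin d × Bool) : stp (rj p) = -stp p := by
  obtain ⟨a, b⟩ := p
  cases b <;> simp [stp, rj, Pi.single_neg]

theorem pos_rw (w : Path d) (n : ℕ) : pos (rw' w) n = -pos w n := by
  unfold pos
  rw [← Finset.sum_neg_distrib]
  exact Finset.sum_congr rfl fun i _ => stp_rj _

theorem tim_rw (w : Path d) (n : ℕ) : tim (rw' w) n = tim w n := rfl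

theorem hit_rw (w : Path d) (k : Site d) : hit (rw' w) k = hit w (-k) := by
  unfold hit
  refine iInf_congr fun n => ?_
  rw [pos_rw, tim_rw]
  exact iInf_congr_Prop neg_eq_iff_eq_neg fun _ => rfl

theorem reach_rc (s : Cell d) (k : Site d) : reach (rc s) k = reach s (-k) := by
  unfold reach
  exact iInf_congr fun i => iInf_congr_Prop Iff.rfl fun _ => hit_rw _ _

theorem refl_apply (ω : Config d) (x : Site d) : refl ω x = rc (ω (-x)) := rfl

theorem along_refl (ω : Config d) (l : List (Site d)) : ∀ x : Site d,
    along (refl ω) x l = along ω (-x) (l.map Neg.neg) := by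
  induction l with
  | nil => intro x; rfl
  | cons y l ih =>
    intro x
    rw [List.map_cons, along, along, ih, refl_apply, reach_rc]
    congr 2
    abel

theorem getLast_map (l : List (Site d)) : ∀ x : Site d,
    ((-x) :: l.map Neg.neg).getLast (List.cons_ne_nil _ _) =
      -((x :: l).getLast (List.cons_ne_nil x l)) := by
  induction l with
  | nil => intro x; rfl
  | cons y l ih =>
    intro x
    rw [List.getLast_cons (List.cons_ne_nil y l)]
    rw [← ih y]
    rfl

theorem map_neg_neg (l : List (Site d)) : (l.map Neg.neg).map Neg.neg = l := by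
  rw [List.map_map]
  conv_rhs => rw [← List.map_id l]
  congr 1
  funext x
  exact neg_neg x

end ReflAux

open ReflAux

/-- PROOF. For a path `w` and its reflection `w'`, `pos w' n = -pos w n`, `tim w' n = tim w n`, so `hit w' k = hit w (-k)`,
`reach` of the reflected cell at `k` is `reach` at `-k`, and
`along (refl ω) x l = along ω (-x) (l.map Neg.neg)`. -/
theorem passage_refl {d : ℕ} (ω : Config d) (x y : Site d) :
    passage (refl ω) x y = passage ω (-x) (-y) := by
  refine le_antisymm ?_ ?_
  · refine le_iInf fun l => le_iInf fun hl => ?_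
    refine (iInf_le _ (l.map Neg.neg)).trans ((iInf_le _ ?_).trans ?_)
    · have h1 := getLast_map (l.map Neg.neg) x
      have h2 : ((-x) :: l).getLast (List.cons_ne_nil _ _) =
          ((-x) :: (l.map Neg.neg).map Neg.neg).getLast (List.cons_ne_nil _ _) := by
        congr 1
        rw [map_neg_neg]
      rw [← h2, hl] at h1
      exact (neg_injective h1).symm
    · rw [along_refl, map_neg_neg]
  · refine le_iInf fun l => le_iInf fun hl => ?_
    refine (iInf_le _ (l.map Neg.neg)).trans ((iInf_le _ ?_).trans ?_)
    · rw [getLast_map, hl]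
    · rw [along_refl]

variable {d : ℕ} [NeZero d] (ν : Measure ℕ) [IsProbabilityMeasure ν]

namespace ReflAux

theorem mp_rj : MeasurePreserving (rj (d := d)) (dirLaw d) (dirLaw d) := by
  refine ⟨measurable_of_finite _, ?_⟩
  have hinv : ∀ p : Fin d × Bool, rj (rj p) = p := fun p => by
    obtain ⟨a, b⟩ := p
    cases b <;> rfl
  refine Measure.ext_of_singleton fun p => ?_
  rw [Measure.map_apply (measurable_of_finite _) (measurableSet_singleton p)]
  have h1 : rj (d := d) ⁻¹' {p} = {rj p} := by
    ext q
    simp only [Set.mem_preimage, Set.mem_singleton_iff]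
    constructor
    · rintro rfl; exact (hinv q).symm
    · rintro rfl; exact hinv p
  rw [h1]
  unfold dirLaw
  rw [PMF.toMeasure_apply_singleton _ _ (measurableSet_singleton _),
    PMF.toMeasure_apply_singleton _ _ (measurableSet_singleton _),
    PMF.uniformOfFintype_apply, PMF.uniformOfFintype_apply]

theorem mp_rp : MeasurePreserving (rp (d := d)) (pairLaw d) (pairLaw d) :=
  (MeasurePreserving.id (expMeasure 1)).prod mp_rj

theorem mp_infinitePi {ι : Type*} {X : ι → Type*} [∀ i, MeasurableSpace (X i)]
    (μ : (i : ι) → Measure (X i)) [∀ i, IsProbabilityMeasure (μ i)]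
    {f : (i : ι) → X i → X i} (hf : ∀ i, MeasurePreserving (f i) (μ i) (μ i)) :
    MeasurePreserving (fun x i => f i (x i)) (Measure.infinitePi μ) (Measure.infinitePi μ) := by
  refine ⟨measurable_pi_lambda _ fun i => (hf i).measurable.comp (measurable_pi_apply i), ?_⟩
  rw [Measure.infinitePi_map_pi (μ := μ) (f := f) fun i => (hf i).measurable]
  congr 1
  funext i
  exact (hf i).map_eq

theorem mp_rw : MeasurePreserving (rw' (d := d)) (pathLaw d) (pathLaw d) :=
  mp_infinitePi _ fun _ => mp_rp

theorem mp_rc : MeasurePreserving (rc (d := d)) (cellLaw d ν) (cellLaw d ν) :=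
  (MeasurePreserving.id ν).prod (mp_infinitePi _ fun _ => mp_rw)

theorem mp_neg : MeasurePreserving (fun (ω : Config d) x => ω (-x)) (law d ν) (law d ν) := by
  refine ⟨measurable_pi_lambda _ fun x => measurable_pi_apply _, ?_⟩
  have h1 : (fun (ω : Config d) x => ω (-x)) =
      ⇑(MeasurableEquiv.piCongrLeft (fun _ : Site d => Cell d) (Equiv.neg (Site d))) := by
    funext ω x
    have h2 := MeasurableEquiv.piCongrLeft_apply_apply (β := fun _ : Site d => Cell d)
      (Equiv.neg (Site d)) ω (-x)
    rw [Equiv.neg_apply, neg_neg] at h2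
    exact h2.symm
  rw [h1]
  exact Measure.infinitePi_map_piCongrLeft (fun _ : Site d => cellLaw d ν) (Equiv.neg (Site d))

end ReflAux

/-- PROOF. `dirLaw` is invariant under `p ↦ (p.1, !p.2)` (a bijection of a finite set, uniform measure), hence `pairLaw`, `pathLaw`
(`Measure.infinitePi_map_pi`), `cellLaw` are invariant, and the law of the configuration is invariant under the coordinatewise map and
under the reindexing `x ↦ -x` (`Measure.infinitePi_map_piCongrLeft`, or `Measure.eq_infinitePi` on boxes). -/
theorem law_refl : MeasurePreserving refl (law d ν) (law d ν) :=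
  (mp_infinitePi (fun _ : Site d => cellLaw d ν) fun _ => mp_rc ν).comp (mp_neg ν)

end H949.FH
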