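import Pool.Agent.H949.FH.Defs
import Pool.Agent.H949.FH.Refl
set_option autoImplicit false

open MeasureTheory ProbabilityTheory Filter Topology
open scoped ENNReal Pointwise

namespace H949.FH

namespace AxisA

variable {d : ℕ} [NeZero d] (ν : Measure ℕ) [IsProbabilityMeasure ν]

/-- there are particles at the origin with positive probability -/
theorem law_pos (hν : ν {0} ≠ 1) : law d ν {ω | 1 ≤ (ω 0).1} ≠ 0 := by
  have h1 : ν {n : ℕ | 1 ≤ n} ≠ 0 := by
    intro h0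
    apply hν
    have h2 : ({0} : Set ℕ)ᶜ = {n : ℕ | 1 ≤ n} := by
      ext n
      simp only [Set.mem_compl_iff, Set.mem_singleton_iff, Set.mem_ofPred_eq]
      omega
    rw [← h2] at h0
    exact (prob_compl_eq_zero_iff (MeasurableSet.singleton 0)).1 h0
  have h2 : MeasurePreserving (fun ω : Config d => ω 0) (law d ν) (cellLaw d ν) := by
    unfold law
    exact measurePreserving_eval_infinitePi (fun _ : Site d => cellLaw d ν) 0
  have h3 : cellLaw d ν ({n : ℕ | 1 ≤ n} ×ˢ (Set.univ : Set (ℕ → Path d))) = ν {n : ℕ | 1 ≤ n} := by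
    unfold cellLaw
    rw [Measure.prod_prod, measure_univ, mul_one]
  have h4 : {ω : Config d | 1 ≤ (ω 0).1} =
      (fun ω : Config d => ω 0) ⁻¹' ({n : ℕ | 1 ≤ n} ×ˢ (Set.univ : Set (ℕ → Path d))) := by
    ext ω
    simp
  have hm : MeasurableSet ({n : ℕ | 1 ≤ n} ×ˢ (Set.univ : Set (ℕ → Path d))) :=
    (MeasurableSet.of_discrete).prod MeasurableSet.univ
  rw [h4, h2.measure_preimage hm.nullMeasurableSet, h3]
  exact h1

/-- the shape statement for one configuration -/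
def Sh {d : ℕ} (A : Set (Fin d → ℝ)) (ω : Config d) : Prop :=
  ∀ ε : ℝ, 0 < ε → ε < 1 → ∃ t₀ : ℝ, ∀ t ≥ t₀,
      (1 - ε) • A ⊆ t⁻¹ • cluster ω t ∧ t⁻¹ • cluster ω t ⊆ (1 + ε) • A

theorem neg_mem_closure {d : ℕ} {A : Set (Fin d → ℝ)} (hb : Bornology.IsBounded A) {ω : Config d}
    (h1 : Sh A ω) (h2 : Sh A (refl ω)) {r : Fin d → ℝ} (hr : r ∈ A) : -r ∈ closure A := by
  obtain ⟨B, hB0, hB⟩ : ∃ B : ℝ, 0 < B ∧ ∀ a ∈ A, ‖a‖ ≤ B := hb.exists_pos_norm_le
  rw [Metric.mem_closure_iff]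
  intro δ hδ
  obtain ⟨ε, hε0, hε1, hεδ⟩ : ∃ ε : ℝ, 0 < ε ∧ ε < 1 ∧ ε * (1 + 2 * B) < δ := by
    refine ⟨min (1 / 2) (δ / (2 * (1 + 2 * B))), by positivity, ?_, ?_⟩
    · exact lt_of_le_of_lt (min_le_left _ _) (by norm_num)
    · have h3 : min (1 / 2) (δ / (2 * (1 + 2 * B))) * (1 + 2 * B) ≤
          δ / (2 * (1 + 2 * B)) * (1 + 2 * B) :=
        mul_le_mul_of_nonneg_right (min_le_right _ _) (by positivity)
      have h4 : δ / (2 * (1 + 2 * B)) * (1 + 2 * B) = δ / 2 := by field_simp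
      rw [h4] at h3
      linarith
  obtain ⟨t1, ht1⟩ := h1 ε hε0 hε1
  obtain ⟨t2, ht2⟩ := h2 ε hε0 hε1
  obtain ⟨t, htd⟩ : ∃ t : ℝ, t = max (max t1 t2) (1 / ε) := ⟨_, rfl⟩
  have hta : t1 ≤ t := by rw [htd]; exact (le_max_left _ _).trans (le_max_left _ _)
  have htb : t2 ≤ t := by rw [htd]; exact (le_max_right _ _).trans (le_max_left _ _)
  have htc : 1 / ε ≤ t := by rw [htd]; exact le_max_right _ _
  have ht0 : 0 < t := lt_of_lt_of_le (by positivity) htc
  have htε : t⁻¹ ≤ ε := by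
    rw [inv_le_comm₀ ht0 hε0, ← one_div]
    exact htc
  -- the point of the cluster
  obtain ⟨s, hs, hsr⟩ := (ht1 t hta).1 (Set.smul_mem_smul_set (a := 1 - ε) hr)
  obtain ⟨y, hy, hys⟩ := hs
  have hc : (fun i => ((-y) i : ℝ)) ∈ cluster (refl ω) t := by
    refine ⟨-y, ?_, fun i => ⟨by simp, by simp⟩⟩
    rw [passage_refl, neg_zero, neg_neg]
    exact hy
  obtain ⟨a, ha, hac⟩ := (ht2 t htb).2 (Set.smul_mem_smul_set (a := t⁻¹) hc)
  refine ⟨a, ha, lt_of_le_of_lt ?_ hεδ⟩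
  have h5 : ‖(1 + ε) • a + (1 - ε) • r‖ ≤ ε := by
    have e1 : (1 + ε) • a + (1 - ε) • r = t⁻¹ • ((fun i => ((-y) i : ℝ)) + s) := by
      have hac' : (1 + ε) • a = t⁻¹ • (fun i => ((-y) i : ℝ)) := hac
      have hsr' : t⁻¹ • s = (1 - ε) • r := hsr
      rw [hac', ← hsr', smul_add]
    rw [e1, norm_smul, Real.norm_of_nonneg (by positivity)]
    have h6 : ‖(fun i => ((-y) i : ℝ)) + s‖ ≤ 1 := by
      rw [pi_norm_le_iff_of_nonneg zero_le_one]
      intro i
      obtain ⟨h7, h8⟩ := hys i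
      rw [Real.norm_eq_abs, abs_le]
      simp only [Pi.add_apply, Pi.neg_apply, Int.cast_neg]
      constructor <;> linarith
    calc t⁻¹ * ‖(fun i => ((-y) i : ℝ)) + s‖ ≤ t⁻¹ * 1 :=
          mul_le_mul_of_nonneg_left h6 (by positivity)
      _ ≤ ε := by rw [mul_one]; exact htε
  rw [dist_comm, dist_eq_norm, sub_neg_eq_add]
  have e2 : a + r = ((1 + ε) • a + (1 - ε) • r) - (ε • a - ε • r) := by
    ext i
    simp only [Pi.add_apply, Pi.sub_apply, Pi.smul_apply, smul_eq_mul]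
    ring
  rw [e2]
  have h7 := norm_sub_le ((1 + ε) • a + (1 - ε) • r) (ε • a - ε • r)
  have h8 := norm_sub_le (ε • a) (ε • r)
  rw [norm_smul, norm_smul, Real.norm_of_nonneg hε0.le] at h8
  have h9 := mul_le_mul_of_nonneg_left (hB a ha) hε0.le
  have h10 := mul_le_mul_of_nonneg_left (hB r hr) hε0.le
  nlinarith

end AxisA

variable {d : ℕ} [NeZero d] (ν : Measure ℕ) [IsProbabilityMeasure ν]

open AxisA in
/-- The origin is in the interior of the shape. PROOF. `{ω | 1 ≤ (ω 0).1}` has positive probability (`hν`), it is invariant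
under `refl`, so there is an `ω` for which the shape statement holds for `ω` and for `refl ω` (`law_refl`:
`MeasurePreserving.quasiMeasurePreserving.ae`). Let `r ∈ A`. For `ε` and `t` large, `(1 - ε) r ∈ t⁻¹ • cluster ω t`, and
`cluster (refl ω) t` is `-cluster ω t` up to the faces of the cubes: if `s ∈ cluster ω t` then `-s` is within
sup-distance `1` of a point of `cluster (refl ω) t` (the centre `-y`) (`passage_refl` at `x = 0`). So `-(1 - ε) r` is within `1 / t` of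
`t⁻¹ • cluster (refl ω) t ⊆ (1 + ε) A`. Let `t → ∞`, `ε → 0`: `-r ∈ closure A`. Thus `-A ⊆ closure A`. Take `a ∈ interior A`; then
`-a ∈ closure A`, and `0 = (a + (-a)) / 2` is in `interior A` (`Convex.openSegment_interior_closure_subset_interior` or
`Convex.combo_interior_closure_subset_interior`). -/
theorem zero_mem_interior (hν : ν {0} ≠ 1) {A : Set (Fin d → ℝ)} (hb : Bornology.IsBounded A)
    (hc : Convex ℝ A) (hi : (interior A).Nonempty)
    (hA : ∀ᵐ ω ∂law d ν, 1 ≤ (ω 0).1 → ∀ ε : ℝ, 0 < ε → ε < 1 → ∃ t₀ : ℝ, ∀ t ≥ t₀,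
      (1 - ε) • A ⊆ t⁻¹ • cluster ω t ∧ t⁻¹ • cluster ω t ⊆ (1 + ε) • A) : (0 : Fin d → ℝ) ∈ interior A := by
  have hA' : ∀ᵐ ω ∂law d ν, 1 ≤ (refl ω 0).1 → Sh A (refl ω) :=
    (law_refl ν).quasiMeasurePreserving.ae hA
  have hω : ∃ ω : Config d, 1 ≤ (ω 0).1 ∧ Sh A ω ∧ Sh A (refl ω) := by
    by_contra hcon
    push Not at hcon
    apply law_pos (d := d) ν hν
    have h1 : ∀ᵐ ω ∂law d ν, ¬ 1 ≤ (ω 0).1 := by
      filter_upwards [hA, hA'] with ω h2 h3 h4
      refine hcon ω h4 (h2 h4) (h3 ?_)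
      show 1 ≤ (ω (-0)).1
      rw [neg_zero]
      exact h4
    have h2 := ae_iff.1 h1
    simpa only [not_not] using h2
  obtain ⟨ω, -, h1, h2⟩ := hω
  obtain ⟨a, ha⟩ := hi
  have h3 := hc.combo_interior_closure_mem_interior ha
    (neg_mem_closure hb h1 h2 (interior_subset ha)) (a := 1 / 2) (b := 1 / 2) (by norm_num)
    (by norm_num) (by norm_num)
  rwa [smul_neg, add_neg_cancel] at h3

namespace AxisAux

omit [NeZero d] in
lemma mem_cluster_iff (ω : Config d) (t : ℝ) (y : Site d) :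
    (fun i => (y i : ℝ)) ∈ cluster ω t ↔ passage ω 0 y ≤ ENNReal.ofReal t := by
  constructor
  · rintro ⟨y', h1, h2⟩
    have : y' = y := by
      funext i
      obtain ⟨h3, h4⟩ := h2 i
      have h5 : ((y' i - y i : ℤ) : ℝ) < 1 := by push_cast; linarith
      have h6 : ((y i - y' i : ℤ) : ℝ) < 1 := by push_cast; linarith
      have h5' : y' i - y i < 1 := by exact_mod_cast h5
      have h6' : y i - y' i < 1 := by exact_mod_cast h6
      omega
    rwa [this] at h1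
  · intro h
    exact ⟨y, h, fun i => ⟨by linarith, by linarith⟩⟩

lemma ax_cast (s : ℤ) (k : ℕ) : (fun i => ((ax d (s * k)) i : ℝ)) =
    (k : ℝ) • (Pi.single (0 : Fin d) (s : ℝ) : Fin d → ℝ) := by
  funext i
  by_cases hi : i = 0
  · subst hi
    simp [ax, mul_comm]
  · simp [ax, hi]

lemma dir_limit {A : Set (Fin d → ℝ)} (hb : Bornology.IsBounded A) (hc : Convex ℝ A)
    (h0 : (0 : Fin d → ℝ) ∈ interior A) (ω : Config d)
    (hω : ∀ ε : ℝ, 0 < ε → ε < 1 → ∃ t₀ : ℝ, ∀ t ≥ t₀,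
      (1 - ε) • A ⊆ t⁻¹ • cluster ω t ∧ t⁻¹ • cluster ω t ⊆ (1 + ε) • A)
    (s : ℤ) (hμ : 0 < gauge A (Pi.single (0 : Fin d) (s : ℝ) : Fin d → ℝ)) (δ : ℝ) (hδ : 0 < δ) :
    ∃ K : ℕ, ∀ k : ℕ, K ≤ k →
      ENNReal.ofReal ((1 - δ) * k * gauge A (Pi.single (0 : Fin d) (s : ℝ) : Fin d → ℝ)) ≤
        passage ω 0 (ax d (s * k)) ∧
      passage ω 0 (ax d (s * k)) ≤
        ENNReal.ofReal ((1 + δ) * k * gauge A (Pi.single (0 : Fin d) (s : ℝ) : Fin d → ℝ)) := by
  set v : Fin d → ℝ := Pi.single (0 : Fin d) (s : ℝ) with hv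
  set μ := gauge A v with hμdef
  have habs : Absorbent ℝ A := absorbent_nhds_zero (mem_interior_iff_mem_nhds.1 h0)
  have h0A : (0 : Fin d → ℝ) ∈ A := interior_subset h0
  -- upper bound
  have hup : ∃ K : ℕ, ∀ k : ℕ, K ≤ k → passage ω 0 (ax d (s * k)) ≤ ENNReal.ofReal ((1 + δ) * k * μ) := by
    have hε0 : 0 < δ / (2 * (1 + δ)) := by positivity
    have hε1 : δ / (2 * (1 + δ)) < 1 := by rw [div_lt_one (by positivity)]; linarith
    obtain ⟨t₀, ht₀⟩ := hω _ hε0 hε1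
    set ε := δ / (2 * (1 + δ)) with hε
    have hprod : (1 - ε) * (1 + δ) = 1 + δ / 2 := by rw [hε]; field_simp; ring
    obtain ⟨K, hK⟩ := exists_nat_gt (t₀ / ((1 + δ) * μ))
    refine ⟨max K 1, fun k hk => ?_⟩
    have hk1 : 1 ≤ k := le_trans (le_max_right _ _) hk
    have hkK : K ≤ k := le_trans (le_max_left _ _) hk
    have hkpos : (0 : ℝ) < k := by exact_mod_cast hk1
    have htpos : 0 < (1 + δ) * k * μ := by positivity
    have ht : (1 + δ) * k * μ ≥ t₀ := by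
      have h1 : t₀ / ((1 + δ) * μ) < k := lt_of_lt_of_le hK (by exact_mod_cast hkK)
      rw [div_lt_iff₀ (by positivity)] at h1
      nlinarith
    have h1 := (ht₀ _ ht).1
    rw [← mem_cluster_iff, ax_cast]
    have h2 : ((1 + δ) * k * μ)⁻¹ • ((k : ℝ) • v) ∈ (1 - ε) • A := by
      rw [Set.mem_smul_set_iff_inv_smul_mem₀ (by linarith : (1 - ε) ≠ 0)]
      apply setOfPred_gauge_lt_one_subset_self hc h0A habs
      show gauge A _ < 1
      rw [smul_smul, smul_smul, gauge_smul_of_nonneg (by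
        have : 0 < 1 - ε := by linarith
        positivity), smul_eq_mul, ← hμdef]
      have h3 : 0 < 1 - ε := by linarith
      have : (1 - ε)⁻¹ * ((1 + δ) * k * μ)⁻¹ * k * μ = ((1 - ε) * (1 + δ))⁻¹ := by
        field_simp
      rw [this, hprod]
      exact inv_lt_one_of_one_lt₀ (by linarith)
    have h3 := h1 h2
    rwa [Set.smul_mem_smul_set_iff₀ (inv_ne_zero htpos.ne')] at h3
  -- lower bound
  have hlo : ∃ K : ℕ, ∀ k : ℕ, K ≤ k → ENNReal.ofReal ((1 - δ) * k * μ) ≤ passage ω 0 (ax d (s * k)) := by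
    by_cases hδ1 : 1 ≤ δ
    · refine ⟨0, fun k _ => ?_⟩
      rw [ENNReal.ofReal_of_nonpos]
      · exact bot_le
      · have : (0 : ℝ) ≤ k := by positivity
        have h1 : 0 ≤ k * μ := by positivity
        nlinarith
    · push Not at hδ1
      obtain ⟨t₀, ht₀⟩ := hω δ hδ hδ1
      obtain ⟨K, hK⟩ := exists_nat_gt (t₀ / ((1 - δ) * μ))
      have h1δ : 0 < 1 - δ := by linarith
      refine ⟨max K 1, fun k hk => ?_⟩
      have hk1 : 1 ≤ k := le_trans (le_max_right _ _) hk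
      have hkK : K ≤ k := le_trans (le_max_left _ _) hk
      have hkpos : (0 : ℝ) < k := by exact_mod_cast hk1
      have htpos : 0 < (1 - δ) * k * μ := by positivity
      have ht : (1 - δ) * k * μ ≥ t₀ := by
        have h1 : t₀ / ((1 - δ) * μ) < k := lt_of_lt_of_le hK (by exact_mod_cast hkK)
        rw [div_lt_iff₀ (by positivity)] at h1
        nlinarith
      by_contra hcon
      push Not at hcon
      have h1 := (ht₀ _ ht).2
      have h2 : (k : ℝ) • v ∈ cluster ω ((1 - δ) * k * μ) := by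
        rw [hv, ← ax_cast, mem_cluster_iff]
        exact hcon.le
      have h3 : ((1 - δ) * k * μ)⁻¹ • ((k : ℝ) • v) ∈ (1 + δ) • A := h1 (Set.smul_mem_smul_set h2)
      rw [Set.mem_smul_set_iff_inv_smul_mem₀ (by linarith : (1 + δ) ≠ 0)] at h3
      have h4 := gauge_le_one_of_mem h3
      rw [smul_smul, smul_smul, gauge_smul_of_nonneg (by positivity), smul_eq_mul, ← hμdef] at h4
      have h5 : (1 + δ)⁻¹ * ((1 - δ) * k * μ)⁻¹ * k * μ = ((1 + δ) * (1 - δ))⁻¹ := by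
        field_simp
      rw [h5, inv_le_one₀ (by positivity)] at h4
      nlinarith
  obtain ⟨K1, hK1⟩ := hup
  obtain ⟨K2, hK2⟩ := hlo
  exact ⟨max K1 K2, fun k hk => ⟨hK2 k (le_trans (le_max_right _ _) hk),
    hK1 k (le_trans (le_max_left _ _) hk)⟩⟩

omit [NeZero d] in
lemma finite_of_shape {A : Set (Fin d → ℝ)} (hb : Bornology.IsBounded A) (ω : Config d)
    (hω : ∀ ε : ℝ, 0 < ε → ε < 1 → ∃ t₀ : ℝ, ∀ t ≥ t₀,
      (1 - ε) • A ⊆ t⁻¹ • cluster ω t ∧ t⁻¹ • cluster ω t ⊆ (1 + ε) • A) (T : ℝ) :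
    {y | passage ω 0 y ≤ ENNReal.ofReal T}.Finite := by
  obtain ⟨t₀, ht₀⟩ := hω (1 / 2) (by norm_num) (by norm_num)
  set t := max (max T t₀) 1 with ht
  have htpos : 0 < t := lt_of_lt_of_le one_pos (le_max_right _ _)
  have h1 := (ht₀ t (le_trans (le_max_right _ _) (le_max_left _ _))).2
  obtain ⟨R, hR⟩ := hb.exists_norm_le
  set N : ℕ := ⌈t * ((1 + 1 / 2) * R)⌉₊ with hN
  refine Set.Finite.subset (Set.finite_Icc (fun _ : Fin d => -(N : ℤ)) (fun _ => (N : ℤ))) ?_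
  intro y hy
  have hy' : passage ω 0 y ≤ ENNReal.ofReal t :=
    le_trans hy (ENNReal.ofReal_le_ofReal (le_trans (le_max_left _ _) (le_max_left _ _)))
  rw [← mem_cluster_iff] at hy'
  have h2 := h1 (Set.smul_mem_smul_set (a := t⁻¹) hy')
  obtain ⟨a, ha, hay⟩ := h2
  have h3 : (fun i => (y i : ℝ)) = t • ((1 + 1 / 2 : ℝ) • a) := by
    have : (1 + 1 / 2 : ℝ) • a = t⁻¹ • (fun i => (y i : ℝ)) := hay
    rw [this, smul_smul, mul_inv_cancel₀ htpos.ne', one_smul]
  have h4 : ∀ i, |(y i : ℝ)| ≤ N := by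
    intro i
    have h5 : (y i : ℝ) = t * ((1 + 1 / 2) * a i) := by
      have := congrFun h3 i
      simpa using this
    have h6 : |a i| ≤ R := le_trans (norm_le_pi_norm a i) (hR a ha)
    rw [h5, abs_mul, abs_mul, abs_of_pos htpos, abs_of_pos (by norm_num : (0 : ℝ) < 1 + 1 / 2)]
    refine le_trans ?_ (Nat.le_ceil _)
    gcongr
  constructor
  · intro i
    have := (abs_le.1 (h4 i)).1
    show -(N : ℤ) ≤ y i
    exact_mod_cast this
  · intro i
    have := (abs_le.1 (h4 i)).2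
    show y i ≤ (N : ℤ)
    exact_mod_cast this

lemma gauge_single_pos {A : Set (Fin d → ℝ)} (hb : Bornology.IsBounded A)
    (h0 : (0 : Fin d → ℝ) ∈ interior A) (s : ℤ) (hs : s ≠ 0) :
    0 < gauge A (Pi.single (0 : Fin d) (s : ℝ) : Fin d → ℝ) := by
  have habs : Absorbent ℝ A := absorbent_nhds_zero (mem_interior_iff_mem_nhds.1 h0)
  rw [gauge_pos habs (NormedSpace.isVonNBounded_iff ℝ |>.2 hb)]
  intro h
  have := congrFun h 0
  simp at this
  exact hs this

end AxisAux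

/-- Limits along the first axis. PROOF. Let `A` be the shape, `0 ∈ interior A` by `zero_mem_interior`. Let
`μ = gauge A e₁ > 0` (`A` is bounded) and `μ' = gauge A (-e₁) > 0`, where `e₁ = Pi.single 0 1`. Take an `ω` with
`1 ≤ (ω 0).1` satisfying the shape statement. Upper bound: let `ε` be small, `t = (1 + δ) k μ`, `k` large:
`gauge A (k e₁ / ((1 - ε) t)) = 1 / ((1 - ε) (1 + δ)) < 1`, so `k e₁ / t ∈ (1 - ε) A ⊆ t⁻¹ • cluster ω t`, i.e. the point
`k e₁` is in `cluster ω t`, and the only lattice point `y` with `y i - 1/2 < k e₁ i ≤ y i + 1/2` for all `i` is `k e₁` itself, so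
`passage ω 0 (ax d k) ≤ ofReal t`. Lower bound: if `passage ω 0 (ax d k) < ofReal ((1 - δ) k μ)`, put `t = (1 - δ) k μ` (large for `k` large,
`δ < 1` without loss of generality; for `δ ≥ 1` the bound is trivial): then
`k e₁ ∈ cluster ω t`, so `k e₁ / t ∈ (1 + ε) A`, so `gauge A (k e₁ / t) ≤ 1 + ε`, i.e. `1 / (1 - δ) ≤ 1 + ε`, false for small `ε`.
The same for `-e₁` (`ax d (-k)`). Local finiteness: for `T`, let `t ≥ max T t₀` with `ε = 1/2`: the lattice points `y` with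
`passage ω 0 y ≤ ofReal T` are in `cluster ω t ⊆ t • (3/2) • A`, a bounded set, so there are finitely many. -/
theorem axis_limit (hν : ν {0} ≠ 1) (h : BoundedShape d ν) : ∃ μ μ' : ℝ, 0 < μ ∧ 0 < μ' ∧
    ∀ᵐ ω ∂law d ν, 1 ≤ (ω 0).1 →
      (∀ δ : ℝ, 0 < δ → ∃ K : ℕ, ∀ k : ℕ, K ≤ k →
        ENNReal.ofReal ((1 - δ) * k * μ) ≤ passage ω 0 (ax d k) ∧
          passage ω 0 (ax d k) ≤ ENNReal.ofReal ((1 + δ) * k * μ)) ∧
      (∀ δ : ℝ, 0 < δ → ∃ K : ℕ, ∀ k : ℕ, K ≤ k →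
        ENNReal.ofReal ((1 - δ) * k * μ') ≤ passage ω 0 (ax d (-(k : ℤ))) ∧
          passage ω 0 (ax d (-(k : ℤ))) ≤ ENNReal.ofReal ((1 + δ) * k * μ')) ∧
      ∀ T : ℝ, {y | passage ω 0 y ≤ ENNReal.ofReal T}.Finite := by
  obtain ⟨A, hb, hc, hi, hA⟩ := h
  have h0 := zero_mem_interior ν hν hb hc hi hA
  refine ⟨gauge A (Pi.single (0 : Fin d) ((1 : ℤ) : ℝ)), gauge A (Pi.single (0 : Fin d) ((-1 : ℤ) : ℝ)),
    AxisAux.gauge_single_pos hb h0 1 one_ne_zero, AxisAux.gauge_single_pos hb h0 (-1) (by norm_num), ?_⟩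
  filter_upwards [hA] with ω hω h1
  refine ⟨fun δ hδ => ?_, fun δ hδ => ?_, AxisAux.finite_of_shape hb ω (hω h1)⟩
  · have := AxisAux.dir_limit hb hc h0 ω (hω h1) 1 (AxisAux.gauge_single_pos hb h0 1 one_ne_zero) δ hδ
    simpa only [one_mul] using this
  · have := AxisAux.dir_limit hb hc h0 ω (hω h1) (-1)
      (AxisAux.gauge_single_pos hb h0 (-1) (by norm_num)) δ hδ
    simpa only [neg_one_mul] using this

end H949.FH
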