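import Mathlib

/-!
# The frog model on `ℤ^d` in continuous time, one type and two types: definitions
-/

set_option autoImplicit false

open MeasureTheory ProbabilityTheory
open scoped ENNReal Pointwise

namespace H949.FH

/-- Sites of `ℤ^d`. -/
abbrev Site (d : ℕ) := Fin d → ℤ

/-- The data of one particle: its successive holding times and its jumps (coordinate and sign). -/
abbrev Path (d : ℕ) := ℕ → ℝ × (Fin d × Bool)

/-- A jump: one step in the direction of the coordinate, forward for `true`, backward for `false`. -/
def stp {d : ℕ} (p : Fin d × Bool) : Site d := Pi.single p.1 (if p.2 then 1 else -1)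

/-- The displacement of the particle after `n` jumps. -/
def pos {d : ℕ} (w : Path d) (n : ℕ) : Site d := ∑ i ∈ Finset.range n, stp (w i).2

/-- The time of the `n`-th jump (on the clock of the particle, started at its activation). -/
noncomputable def tim {d : ℕ} (w : Path d) (n : ℕ) : ℝ := ∑ i ∈ Finset.range n, (w i).1

/-- The first time (on its own clock) at which the displacement of the particle is `k`;
infinite if this never happens. -/
noncomputable def hit {d : ℕ} (w : Path d) (k : Site d) : ℝ≥0∞ :=
  ⨅ (n : ℕ) (_ : pos w n = k), ENNReal.ofReal (tim w n)

/-- What is at a site: the number of particles, and the paths of the particles (only the paths with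
index less than the number of particles are used). -/
abbrev Cell (d : ℕ) := ℕ × (ℕ → Path d)

/-- The first time (on their clocks) at which one of the particles of the cell has displacement `k`. -/
noncomputable def reach {d : ℕ} (s : Cell d) (k : Site d) : ℝ≥0∞ :=
  ⨅ (i : ℕ) (_ : i < s.1), hit (s.2 i) k

/-- A configuration: a cell for each site. -/
abbrev Config (d : ℕ) := Site d → Cell d

/-- The uniform law on the `2 d` jumps. -/
noncomputable def dirLaw (d : ℕ) [NeZero d] : Measure (Fin d × Bool) :=
  (PMF.uniformOfFintype (Fin d × Bool)).toMeasure

instance (d : ℕ) [NeZero d] : IsProbabilityMeasure (dirLaw d) := by unfold dirLaw; infer_instance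

instance : IsProbabilityMeasure (expMeasure 1) := isProbabilityMeasure_expMeasure one_pos

/-- The law of a pair (holding time, jump): exponential of mean one and independent uniform jump. -/
noncomputable def pairLaw (d : ℕ) [NeZero d] : Measure (ℝ × (Fin d × Bool)) :=
  (expMeasure 1).prod (dirLaw d)

instance (d : ℕ) [NeZero d] : IsProbabilityMeasure (pairLaw d) := by unfold pairLaw; infer_instance

/-- The law of a path: i.i.d. pairs. This is the continuous-time simple random walk with rate one. -/
noncomputable def pathLaw (d : ℕ) [NeZero d] : Measure (Path d) :=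
  Measure.infinitePi (fun _ : ℕ => pairLaw d)

instance (d : ℕ) [NeZero d] : IsProbabilityMeasure (pathLaw d) := by unfold pathLaw; infer_instance

/-- The law of a cell: a number of particles of law `ν` and independent paths. -/
noncomputable def cellLaw (d : ℕ) [NeZero d] (ν : Measure ℕ) : Measure (Cell d) :=
  ν.prod (Measure.infinitePi (fun _ : ℕ => pathLaw d))

instance (d : ℕ) [NeZero d] (ν : Measure ℕ) [IsProbabilityMeasure ν] :
    IsProbabilityMeasure (cellLaw d ν) := by unfold cellLaw; infer_instance

/-- The law of the configuration: independent cells. -/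
noncomputable def law (d : ℕ) [NeZero d] (ν : Measure ℕ) [IsProbabilityMeasure ν] :
    Measure (Config d) := Measure.infinitePi (fun _ : Site d => cellLaw d ν)

instance (d : ℕ) [NeZero d] (ν : Measure ℕ) [IsProbabilityMeasure ν] :
    IsProbabilityMeasure (law d ν) := by unfold law; infer_instance

/-- The time along a chain of sites: the particles of `x` reach the first site of the list, then the
particles of this site reach the second site, and so on. -/
noncomputable def along {d : ℕ} (ω : Config d) : Site d → List (Site d) → ℝ≥0∞
  | _, [] => 0
  | x, y :: l => reach (ω x) (y - x) + along ω y l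

/-- The time at which `y` is first visited in the one-type process with jump rate one in which the particles
at `x` are active at time `0`: the infimum over all chains from `x` to `y`. -/
noncomputable def passage {d : ℕ} (ω : Config d) (x y : Site d) : ℝ≥0∞ :=
  ⨅ (l : List (Site d)) (_ : (x :: l).getLast (List.cons_ne_nil x l) = y), along ω x l

/-- The union of the unit cubes around the sites visited up to time `t` in the one-type process. -/
def cluster {d : ℕ} (ω : Config d) (t : ℝ) : Set (Fin d → ℝ) :=
  {r | ∃ y : Site d, passage ω 0 y ≤ ENNReal.ofReal t ∧ ∀ i, (y i : ℝ) - 1 / 2 < r i ∧ r i ≤ y i + 1 / 2}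

/-- The law `ν` gives rise to a bounded shape. -/
def BoundedShape (d : ℕ) [NeZero d] (ν : Measure ℕ) [IsProbabilityMeasure ν] : Prop :=
  ∃ A : Set (Fin d → ℝ), Bornology.IsBounded A ∧ Convex ℝ A ∧ (interior A).Nonempty ∧
    ∀ᵐ ω ∂law d ν, 1 ≤ (ω 0).1 → ∀ ε : ℝ, 0 < ε → ε < 1 → ∃ t₀ : ℝ, ∀ t ≥ t₀,
      (1 - ε) • A ⊆ t⁻¹ • cluster ω t ∧ t⁻¹ • cluster ω t ⊆ (1 + ε) • A

/-- The jump rate of the two types: type 1 is `false`, type 2 is `true`. -/
noncomputable def rate (β : ℝ) (c : Bool) : ℝ≥0∞ := if c then ENNReal.ofReal β else 1

/-- `t x` is the time at which the site `x` is first visited (infinite if never), `c x` is the type of its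
particles (`false` is type 1, `true` is type 2), in the two-type process started from `0` (type 1) and
`z` (type 2). A particle of type 2 uses its path with a clock of speed `β`. -/
structure IsOutcome {d : ℕ} (β : ℝ) (z : Site d) (ω : Config d) (t : Site d → ℝ≥0∞)
    (c : Site d → Bool) : Prop where
  zero : t 0 = 0 ∧ c 0 = false
  start : t z = 0 ∧ c z = true
  /-- An active particle visits the sites of its path. -/
  le : ∀ x y, t x ≤ t y + reach (ω y) (x - y) / rate β (c y)
  /-- Every other site is first visited by a particle activated before, whose type its particles get. -/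
  cause : ∀ x, x ≠ 0 → x ≠ z → t x ≠ ∞ →
    ∃ y, t y < t x ∧ t x = t y + reach (ω y) (x - y) / rate β (c y) ∧ c x = c y
  /-- In bounded time finitely many sites are visited. -/
  locFinite : ∀ T : ℝ, {x | t x ≤ ENNReal.ofReal T}.Finite

/-- Translation of a configuration. -/
def shift {d : ℕ} (v : Site d) (ω : Config d) : Config d := fun x => ω (x + v)

/-- The point `n e_1` of the first axis. -/
def ax (d : ℕ) [NeZero d] (n : ℤ) : Site d := Pi.single 0 n

end H949.FH
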