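import Pool.Agent.H949.FH.Defs

set_option autoImplicit false

open MeasureTheory ProbabilityTheory Filter Topology
open scoped ENNReal Pointwise

namespace H949.FH

namespace Exi

variable {d : ℕ} {ω : Config d}

lemma along_append (l : List (Site d)) : ∀ (s a : Site d), along ω s (l ++ [a]) =
    along ω s l + reach (ω ((s :: l).getLast (List.cons_ne_nil s l)))
      (a - (s :: l).getLast (List.cons_ne_nil s l)) := by
  induction l with
  | nil =>
    intro s a
    simp [along]
  | cons b l ih =>
    intro s a
    have h1 : (s :: b :: l).getLast (List.cons_ne_nil s (b :: l)) =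
        (b :: l).getLast (List.cons_ne_nil b l) := List.getLast_cons _
    rw [h1]
    show reach (ω s) (b - s) + along ω b (l ++ [a]) = reach (ω s) (b - s) + along ω b l + _
    rw [ih b a, add_assoc]

lemma passage_le {s x : Site d} (l : List (Site d))
    (h : (s :: l).getLast (List.cons_ne_nil s l) = x) : passage ω s x ≤ along ω s l :=
  iInf₂_le l h

lemma passage_self (s : Site d) : passage ω s s = 0 := by
  have h := passage_le (ω := ω) (s := s) (x := s) [] rfl
  exact le_antisymm (h.trans (le_of_eq rfl)) bot_le

lemma passage_step (s x y : Site d) :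
    passage ω s x ≤ passage ω s y + reach (ω y) (x - y) := by
  have h1 : passage ω s y + reach (ω y) (x - y) =
      ⨅ (l : List (Site d)) (_ : (s :: l).getLast (List.cons_ne_nil s l) = y),
        (along ω s l + reach (ω y) (x - y)) := by
    unfold passage
    rw [ENNReal.iInf_add]
    refine iInf_congr fun l => ?_
    rw [ENNReal.iInf_add]
  rw [h1]
  refine le_iInf₂ fun l hl => ?_
  have h2 := along_append (ω := ω) l s x
  simp only [hl] at h2
  rw [← h2]
  refine passage_le (l ++ [x]) ?_
  simp

lemma tim_ge (w : Path d) (hw : ∀ n, 0 < (w n).1) (n : ℕ) (hn : n ≠ 0) : (w 0).1 ≤ tim w n := by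
  unfold tim
  exact Finset.single_le_sum (f := fun i => (w i).1) (fun i _ => (hw i).le)
    (Finset.mem_range.2 (Nat.pos_of_ne_zero hn))

lemma hit_ge (w : Path d) (hw : ∀ n, 0 < (w n).1) (k : Site d) (hk : k ≠ 0) :
    ENNReal.ofReal (w 0).1 ≤ hit w k := by
  unfold hit
  refine le_iInf₂ fun n hn => ENNReal.ofReal_le_ofReal (tim_ge w hw n ?_)
  rintro rfl
  apply hk
  rw [← hn]
  simp [pos]

lemma reach_pos (s : Cell d) (hs : ∀ i n, 0 < ((s.2 i) n).1) (k : Site d) (hk : k ≠ 0) :
    0 < reach s k := by
  have h1 : ∃ δ : ℝ≥0∞, 0 < δ ∧ ∀ i < s.1, δ ≤ ENNReal.ofReal ((s.2 i) 0).1 := by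
    rcases Nat.eq_zero_or_pos s.1 with h | h
    · exact ⟨1, one_pos, fun i hi => by omega⟩
    · obtain ⟨i₀, -, hi₀⟩ := Finset.exists_min_image (Finset.range s.1)
        (fun i => ENNReal.ofReal ((s.2 i) 0).1) ⟨0, Finset.mem_range.2 h⟩
      exact ⟨_, ENNReal.ofReal_pos.2 (hs i₀ 0), fun i hi => hi₀ i (Finset.mem_range.2 hi)⟩
  obtain ⟨δ, hδ, hδ'⟩ := h1
  refine lt_of_lt_of_le hδ ?_
  unfold reach
  exact le_iInf₂ fun i hi => (hδ' i hi).trans (hit_ge _ (hs i) k hk)

lemma chain_last (s x : Site d) (hsx : s ≠ x) (l : List (Site d)) :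
    (s :: l).getLast (List.cons_ne_nil s l) = x →
      ∃ y, y ≠ x ∧ passage ω s y + reach (ω y) (x - y) ≤ along ω s l := by
  induction l using List.reverseRecOn with
  | nil =>
    intro h
    exact absurd h hsx
  | append_singleton l a ih =>
    intro h
    have ha : a = x := by
      rw [← h]
      have h3 : (s :: (l ++ [a])).getLast (List.cons_ne_nil s (l ++ [a])) = a := by
        simp
      exact h3.symm
    subst ha
    have h2 := along_append (ω := ω) l s a
    by_cases hy : (s :: l).getLast (List.cons_ne_nil s l) = a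
    · obtain ⟨y, hya, hle⟩ := ih hy
      refine ⟨y, hya, hle.trans ?_⟩
      rw [h2]
      exact le_self_add
    · refine ⟨_, hy, ?_⟩
      rw [h2]
      exact add_le_add (passage_le l rfl) le_rfl

lemma attained (s x : Site d) (hsx : s ≠ x) (hpos : ∀ x i n, 0 < (((ω x).2 i) n).1)
    (hf : ∀ T : ℝ, {y | passage ω s y ≤ ENNReal.ofReal T}.Finite) (hx : passage ω s x ≠ ∞) :
    ∃ y, passage ω s y < passage ω s x ∧
      passage ω s x = passage ω s y + reach (ω y) (x - y) := by
  classical
  have hT : ENNReal.ofReal ((passage ω s x).toReal + 1) = passage ω s x + 1 := by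
    rw [ENNReal.ofReal_add ENNReal.toReal_nonneg zero_le_one, ENNReal.ofReal_toReal hx,
      ENNReal.ofReal_one]
  have hfin := hf ((passage ω s x).toReal + 1)
  rw [hT] at hfin
  have hfin2 : {y | y ≠ x ∧ passage ω s y ≤ passage ω s x + 1}.Finite :=
    hfin.subset fun y hy => hy.2
  -- every chain below `P x + 1` gives a point of the finite set
  have key : ∀ r : ℝ≥0∞, passage ω s x < r → ∃ y ∈ hfin2.toFinset,
      passage ω s y + reach (ω y) (x - y) ≤ r := by
    intro r hr
    have h1 : passage ω s x < min r (passage ω s x + 1) :=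
      lt_min hr (ENNReal.lt_add_right hx one_ne_zero)
    have h2 : ∃ l : List (Site d), ∃ _ : (s :: l).getLast (List.cons_ne_nil s l) = x,
        along ω s l < min r (passage ω s x + 1) := by
      obtain ⟨l, hl1⟩ := iInf_lt_iff.1 h1
      obtain ⟨hl, hlt⟩ := iInf_lt_iff.1 hl1
      exact ⟨l, hl, hlt⟩
    obtain ⟨l, hl, hlt⟩ := h2
    obtain ⟨y, hyx, hy⟩ := chain_last (ω := ω) s x hsx l hl
    refine ⟨y, ?_, hy.trans (hlt.le.trans (min_le_left _ _))⟩
    rw [Set.Finite.mem_toFinset]
    exact ⟨hyx, (le_self_add.trans hy).trans (hlt.le.trans (min_le_right _ _))⟩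
  obtain ⟨y1, hy1, -⟩ := key (passage ω s x + 1) (ENNReal.lt_add_right hx one_ne_zero)
  obtain ⟨y, hy, hmin⟩ := Finset.exists_min_image hfin2.toFinset
    (fun y => passage ω s y + reach (ω y) (x - y)) ⟨y1, hy1⟩
  have hyx : y ≠ x := by
    rw [Set.Finite.mem_toFinset] at hy
    exact hy.1
  have heq : passage ω s x = passage ω s y + reach (ω y) (x - y) := by
    refine le_antisymm (passage_step s x y) ?_
    refine le_of_forall_gt_imp_ge_of_dense fun r hr => ?_
    obtain ⟨y', hy', hle⟩ := key r hr
    exact (hmin y' hy').trans hle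
  refine ⟨y, ?_, heq⟩
  rw [heq]
  refine ENNReal.lt_add_right ?_ (reach_pos (ω y) (hpos y) (x - y) (sub_ne_zero.2 hyx.symm)).ne'
  intro h
  apply hx
  rw [heq, h, top_add]

end Exi

/-- Deterministic. PROOF. Put `t y = min (passage ω 0 y) (passage ω z y)` and
`c y = decide (passage ω z y < passage ω 0 y)` (classical). `rate 1 c = 1` for both types. (0) For `x ≠ y`, `0 < passage ω x y`:
a chain from `x` to `y ≠ x` has a first step from `x` to some `u ≠ x`, and `reach (ω x) k ≥ ⨅ i < (ω x).1, ofReal ((ω x).2 i 0).1 > 0` for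
`k ≠ 0` (finitely many particles, `hpos`; as `pos w n = k ≠ 0` needs `n ≥ 1` and `tim w n ≥ (w 0).1`); if there are no particles `reach = ∞`.
`zero`, `start`: `passage ω x x = 0`, and (0) for `c z = true` (`passage ω z z = 0 < passage ω 0 z`); `c 0 = false` since nothing is `< 0`.
`le x y`: `passage ω s x ≤ passage ω s y + reach (ω y) (x - y)` for `s = 0, z` (append `x` to chains). `cause x`: let `s` be the source with
`t x = passage ω s x` (`s = z` if `c x = true`, `s = 0` if `c x = false`), finite, `x ≠ s`. The set of `y` with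
`passage ω s y ≤ passage ω s x` (a finite real) is finite by `h0`, `hz0`. Every chain from `s` to `x` with sum less than
`passage ω s x + 1` has its last step from some `y` (take the last `y ≠ x`) with `passage ω s y` at most `passage ω s x + 1`: so
`passage ω s x = ⨅ y ≠ x, (passage ω s y + reach (ω y) (x - y))`, where only the finitely many `y` with
`passage ω s y ≤ passage ω s x + 1` matter, so the infimum is attained at some `y`. Then `passage ω s y < passage ω s x` as
`reach (ω y) (x - y) > 0`. The type: if `s = z`, `passage ω z x < passage ω 0 x`, then `passage ω z y < passage ω 0 y`, since otherwise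
`passage ω 0 x ≤ passage ω 0 y + reach .. ≤ passage ω z y + reach .. = passage ω z x`; so `t y = passage ω z y`, `c y = true`. If `s = 0`,
`passage ω 0 x ≤ passage ω z x`: `passage ω z y < passage ω 0 y` would give `passage ω z x < passage ω 0 x`; so
`t y = passage ω 0 y`, `c y = false`. `locFinite`: union of the two finite sets. -/
theorem exists_outcome {d : ℕ} {z : Site d} (hz : z ≠ 0) {ω : Config d}
    (hpos : ∀ x i n, 0 < (((ω x).2 i) n).1)
    (h0 : ∀ T : ℝ, {y | passage ω 0 y ≤ ENNReal.ofReal T}.Finite)
    (hz0 : ∀ T : ℝ, {y | passage ω z y ≤ ENNReal.ofReal T}.Finite) :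
    ∃ (t : Site d → ℝ≥0∞) (c : Site d → Bool), IsOutcome 1 z ω t c := by
  classical
  have hr : ∀ c : Bool, rate 1 c = 1 := by
    intro c
    unfold rate
    rw [ENNReal.ofReal_one]
    split_ifs <;> rfl
  have hstep : ∀ s x y, passage ω s x ≤ passage ω s y + reach (ω y) (x - y) :=
    fun s x y => Exi.passage_step s x y
  refine ⟨fun y => min (passage ω 0 y) (passage ω z y),
    fun y => decide (passage ω z y < passage ω 0 y), ?_, ?_, ?_, ?_, ?_⟩
  · simp only [Exi.passage_self]
    exact ⟨min_eq_left bot_le, decide_eq_false not_lt_bot⟩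
  · have h0z : 0 < passage ω 0 z := by
      by_cases h : passage ω 0 z = ∞
      · rw [h]
        exact ENNReal.zero_lt_top
      · obtain ⟨y, hy, -⟩ := Exi.attained 0 z (fun h => hz h.symm) hpos h0 h
        exact lt_of_le_of_lt bot_le hy
    simp only [Exi.passage_self]
    exact ⟨min_eq_right bot_le, decide_eq_true h0z⟩
  · intro x y
    simp only [hr, div_one]
    rcases le_total (passage ω 0 y) (passage ω z y) with h | h
    · rw [min_eq_left h]
      exact (min_le_left _ _).trans (hstep 0 x y)
    · rw [min_eq_right h]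
      exact (min_le_right _ _).trans (hstep z x y)
  · intro x hx0 hxz hfin
    simp only [hr, div_one] at hfin ⊢
    by_cases hc : passage ω z x < passage ω 0 x
    · rw [min_eq_right hc.le] at hfin
      obtain ⟨y, hy1, hy2⟩ := Exi.attained z x (fun h => hxz h.symm) hpos hz0 hfin
      have hyc : passage ω z y < passage ω 0 y := by
        by_contra h
        rw [not_lt] at h
        have h1 := hstep 0 x y
        have h2 : passage ω 0 x ≤ passage ω z x := by
          rw [hy2]
          exact h1.trans (add_le_add h le_rfl)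
        exact absurd hc (not_lt.2 h2)
      refine ⟨y, ?_, ?_, ?_⟩
      · rw [min_eq_right hyc.le, min_eq_right hc.le]
        exact hy1
      · rw [min_eq_right hyc.le, min_eq_right hc.le]
        exact hy2
      · rw [decide_eq_true hc, decide_eq_true hyc]
    · have hc' := not_lt.1 hc
      rw [min_eq_left hc'] at hfin
      obtain ⟨y, hy1, hy2⟩ := Exi.attained 0 x (fun h => hx0 h.symm) hpos h0 hfin
      have hR : reach (ω y) (x - y) ≠ ∞ := by
        intro h
        apply hfin
        rw [hy2, h, add_top]
      have hyc : ¬ passage ω z y < passage ω 0 y := by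
        intro h
        have h1 : passage ω z x < passage ω 0 x := by
          rw [hy2]
          exact lt_of_le_of_lt (hstep z x y) (ENNReal.add_lt_add_right hR h)
        exact hc h1
      have hyc' := not_lt.1 hyc
      refine ⟨y, ?_, ?_, ?_⟩
      · rw [min_eq_left hyc', min_eq_left hc']
        exact hy1
      · rw [min_eq_left hyc', min_eq_left hc']
        exact hy2
      · rw [decide_eq_false hc, decide_eq_false hyc]
  · intro T
    refine ((h0 T).union (hz0 T)).subset fun x hx => ?_
    rcases min_le_iff.1 (show min (passage ω 0 x) (passage ω z x) ≤ ENNReal.ofReal T from hx)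
      with h | h
    · exact Or.inl h
    · exact Or.inr h

end H949.FH
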