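import Pool.Agent.H949.FH.Defs

set_option autoImplicit false

open MeasureTheory ProbabilityTheory Filter Topology
open scoped ENNReal Pointwise

namespace H949.FH

namespace InvA

variable {d : ℕ}

theorem passage_le (ω : Config d) (x y : Site d) (l : List (Site d))
    (h : (x :: l).getLast (List.cons_ne_nil x l) = y) : passage ω x y ≤ along ω x l := by
  unfold passage
  exact iInf₂_le l h

/-- The last site of a concatenation. -/
theorem last_append (l l' : List (Site d)) (x y z : Site d)
    (h : (x :: l).getLast (List.cons_ne_nil x l) = y)
    (h' : (y :: l').getLast (List.cons_ne_nil y l') = z) :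
    (x :: (l ++ l')).getLast (List.cons_ne_nil x (l ++ l')) = z := by
  induction l generalizing x with
  | nil =>
    have hxy : x = y := h
    subst hxy
    exact h'
  | cons a l ih =>
    rw [List.getLast_cons_cons] at h
    exact ih a h

/-- The time along a concatenation. -/
theorem along_append (ω : Config d) (l l' : List (Site d)) (x y : Site d)
    (h : (x :: l).getLast (List.cons_ne_nil x l) = y) :
    along ω x (l ++ l') = along ω x l + along ω y l' := by
  induction l generalizing x with
  | nil =>
    have hxy : x = y := h
    subst hxy
    simp [along]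
  | cons a l ih =>
    rw [List.getLast_cons_cons] at h
    have h1 := ih a h
    change reach (ω x) (a - x) + along ω a (l ++ l') =
      reach (ω x) (a - x) + along ω a l + along ω y l'
    rw [h1, add_assoc]

/-- The time along a shifted chain. -/
theorem along_shift (v : Site d) (ω : Config d) (l : List (Site d)) (x : Site d) :
    along (shift v ω) x l = along ω (x + v) (l.map (· + v)) := by
  induction l generalizing x with
  | nil => rfl
  | cons a l ih =>
    change reach (ω (x + v)) (a - x) + along (shift v ω) a l =
      reach (ω (x + v)) ((a + v) - (x + v)) + along ω (a + v) (l.map (· + v))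
    rw [ih a, add_sub_add_right_eq_sub]

/-- The last site of a shifted chain. -/
theorem last_shift (v : Site d) (l : List (Site d)) (x y : Site d)
    (h : (x :: l).getLast (List.cons_ne_nil x l) = y) :
    ((x + v) :: l.map (· + v)).getLast (List.cons_ne_nil (x + v) (l.map (· + v))) = y + v := by
  induction l generalizing x with
  | nil =>
    have hxy : x = y := h
    subst hxy
    rfl
  | cons a l ih =>
    rw [List.getLast_cons_cons] at h
    exact ih a h

theorem passage_shift_le (v : Site d) (ω : Config d) (x y : Site d) :
    passage ω (x + v) (y + v) ≤ passage (shift v ω) x y := by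
  unfold passage
  refine le_iInf₂ fun l hl => ?_
  rw [along_shift]
  exact iInf₂_le (l.map (· + v)) (last_shift v l x y hl)

theorem measurable_stp : Measurable (stp : Fin d × Bool → Site d) :=
  Measurable.of_discrete

theorem measurable_pos (n : ℕ) : Measurable fun w : Path d => pos w n := by
  unfold pos
  refine Finset.measurable_fun_sum _ fun i _ => ?_
  exact measurable_stp.comp (measurable_snd.comp (measurable_pi_apply i))

theorem measurable_tim (n : ℕ) : Measurable fun w : Path d => tim w n := by
  unfold tim
  refine Finset.measurable_fun_sum _ fun i _ => ?_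
  exact measurable_fst.comp (measurable_pi_apply i)

theorem measurable_hit (k : Site d) : Measurable fun w : Path d => hit w k := by
  classical
  unfold hit
  refine Measurable.iInf fun n => ?_
  have h : (fun w : Path d => ⨅ (_ : pos w n = k), ENNReal.ofReal (tim w n)) =
      fun w => if pos w n = k then ENNReal.ofReal (tim w n) else ∞ := by
    funext w
    rw [iInf_eq_if]
  rw [h]
  refine Measurable.ite ?_ (measurable_tim n).ennreal_ofReal measurable_const
  exact (measurable_pos n) (measurableSet_singleton k)

theorem measurable_reach (k : Site d) : Measurable fun s : Cell d => reach s k := by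
  classical
  unfold reach
  refine Measurable.iInf fun i => ?_
  have h : (fun s : Cell d => ⨅ (_ : i < s.1), hit (s.2 i) k) =
      fun s => if i < s.1 then hit (s.2 i) k else ∞ := by
    funext s
    rw [iInf_eq_if]
  rw [h]
  refine Measurable.ite ?_ ?_ measurable_const
  · exact measurableSet_lt measurable_const measurable_fst
  · exact (measurable_hit k).comp ((measurable_pi_apply i).comp measurable_snd)

theorem measurable_along (l : List (Site d)) (x : Site d) :
    Measurable fun ω : Config d => along ω x l := by
  induction l generalizing x with
  | nil => exact measurable_const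
  | cons a l ih =>
    exact ((measurable_reach (a - x)).comp (measurable_pi_apply x)).add (ih a)

end InvA

section det
variable {d : ℕ}

/-- PROOF. The chain `[]` is allowed. -/
theorem passage_self (ω : Config d) (x : Site d) : passage ω x x = 0 := by
  have h : passage ω x x ≤ along ω x [] := InvA.passage_le ω x x [] rfl
  exact le_antisymm h zero_le

/-- PROOF. Concatenate chains: `along ω x (l ++ l') = along ω x l + along ω y l'` when `l` ends in `y`. -/
theorem passage_tri (ω : Config d) (x y z : Site d) :
    passage ω x z ≤ passage ω x y + passage ω y z := by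
  have key : ∀ (l l' : List (Site d)), (x :: l).getLast (List.cons_ne_nil x l) = y →
      (y :: l').getLast (List.cons_ne_nil y l') = z →
      passage ω x z ≤ along ω x l + along ω y l' := by
    intro l l' hl hl'
    rw [← InvA.along_append ω l l' x y hl]
    exact iInf₂_le (l ++ l') (InvA.last_append l l' x y z hl hl')
  have key2 : ∀ (l : List (Site d)), (x :: l).getLast (List.cons_ne_nil x l) = y →
      passage ω x z ≤ along ω x l + passage ω y z := by
    intro l hl
    unfold passage
    rw [ENNReal.add_iInf]
    refine le_iInf fun l' => ?_
    rw [ENNReal.add_iInf]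
    exact le_iInf fun hl' => key l l' hl hl'
  have h3 : passage ω x y + passage ω y z =
      ⨅ (l : List (Site d)) (_ : (x :: l).getLast (List.cons_ne_nil x l) = y),
        (along ω x l + passage ω y z) := by
    conv_lhs => unfold passage
    rw [ENNReal.iInf_add]
    refine iInf_congr fun l => ?_
    rw [ENNReal.iInf_add]
    rfl
  rw [h3]
  exact le_iInf₂ fun l hl => key2 l hl

/-- One particle step. PROOF. The chain `[y]`. -/
theorem passage_le_reach (ω : Config d) (x y : Site d) : passage ω x y ≤ reach (ω x) (y - x) := by
  have h : passage ω x y ≤ along ω x [y] := InvA.passage_le ω x y [y] rfl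
  refine h.trans (le_of_eq ?_)
  change reach (ω x) (y - x) + 0 = _
  rw [add_zero]

/-- PROOF. `along (shift v ω) x l = along ω (x + v) (l.map (· + v))`, and chains from `x` to `y` correspond to
chains from `x + v` to `y + v`. -/
theorem passage_shift (v : Site d) (ω : Config d) (x y : Site d) :
    passage (shift v ω) x y = passage ω (x + v) (y + v) := by
  refine le_antisymm ?_ (InvA.passage_shift_le v ω x y)
  have h := InvA.passage_shift_le (-v) (shift v ω) (x + v) (y + v)
  have e : shift (-v) (shift v ω) = ω := by
    funext a
    change ω (a + -v + v) = ω a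
    rw [neg_add_cancel_right]
  rwa [e, add_neg_cancel_right, add_neg_cancel_right] at h

/-- PROOF. Countable infimum of measurable functions (`List (Site d)` is countable; `hit` as in
`Pool/Agent/H949/FG/Defs.lean` `measurable_hit`; `reach` is an infimum over `i` of
`if i < s.1 then hit (s.2 i) k else ∞`). -/
theorem measurable_passage (x y : Site d) : Measurable fun ω : Config d => passage ω x y := by
  unfold passage
  refine Measurable.iInf fun l => ?_
  exact Measurable.iInf fun _ => InvA.measurable_along l x

end det

variable {d : ℕ} [NeZero d] (ν : Measure ℕ) [IsProbabilityMeasure ν]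

/-- PROOF. Reindexing of an infinite product of equal measures by the bijection `x ↦ x + v`
(`Measure.infinitePi_map_piCongrLeft`, or `Measure.eq_infinitePi` on boxes). -/
theorem law_shift (v : Site d) : MeasurePreserving (shift v) (law d ν) (law d ν) := by
  classical
  have hmeas : Measurable (shift v : Config d → Config d) :=
    measurable_pi_lambda _ fun x => measurable_pi_apply (x + v)
  refine ⟨hmeas, ?_⟩
  unfold law
  refine Measure.eq_infinitePi _ fun s t ht => ?_
  rw [Measure.map_apply hmeas (MeasurableSet.pi s.countable_toSet fun i _ => ht i)]
  have hpre : (shift v : Config d → Config d) ⁻¹' (Set.pi (s : Set (Site d)) t) =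
      Set.pi ((s.map (Equiv.addRight v).toEmbedding : Finset (Site d)) : Set (Site d))
        (fun y => t (y - v)) := by
    ext ω
    simp only [Set.mem_preimage, Set.mem_pi, Finset.mem_coe, Finset.mem_map,
      Equiv.coe_toEmbedding, Equiv.coe_addRight, forall_exists_index, and_imp]
    constructor
    · rintro h y x hx rfl
      rw [add_sub_cancel_right]
      exact h x hx
    · intro h x hx
      have := h (x + v) x hx rfl
      rwa [add_sub_cancel_right] at this
  rw [hpre, Measure.infinitePi_pi _ (fun i _ => ht _), Finset.prod_map]
  refine Finset.prod_congr rfl fun x _ => ?_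
  simp only [Equiv.coe_toEmbedding, Equiv.coe_addRight, add_sub_cancel_right]

/-- PROOF. `Measure.infinitePi_pi` on the finite set `F`. -/
theorem law_occupied (F : Finset (Site d)) :
    law d ν {ω | ∀ x ∈ F, 1 ≤ (ω x).1} = (ν {n | 1 ≤ n}) ^ F.card := by
  have h1 : {ω : Config d | ∀ x ∈ F, 1 ≤ (ω x).1} =
      Set.pi (F : Set (Site d)) (fun _ => ({n : ℕ | 1 ≤ n} ×ˢ Set.univ : Set (Cell d))) := by
    ext ω
    simp [Set.mem_pi]
  have hms : MeasurableSet ({n : ℕ | 1 ≤ n} ×ˢ Set.univ : Set (Cell d)) :=
    (MeasurableSet.of_discrete).prod MeasurableSet.univ
  rw [h1]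
  unfold law
  rw [Measure.infinitePi_pi _ (fun _ _ => hms), Finset.prod_const]
  congr 1
  rw [cellLaw, Measure.prod_prod, measure_univ, mul_one]

/-- The holding times are positive. PROOF. `ae_all_iff`, the coordinates of the infinite products have the laws
`cellLaw`, `pathLaw`, `pairLaw`; the exponential law has no mass on `(-∞, 0]`. -/
theorem law_posTime : ∀ᵐ ω ∂law d ν, ∀ x i n, 0 < (((ω x).2 i) n).1 := by
  have h0 : ∀ᵐ t ∂expMeasure 1, (0 : ℝ) < t := by
    have h1 : expMeasure 1 (Set.Iic (0 : ℝ)) = 0 := by
      rw [← ofReal_cdf, cdf_expMeasure_eq one_pos, if_pos le_rfl]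
      simp
    rw [ae_iff]
    have h2 : {t : ℝ | ¬ 0 < t} = Set.Iic 0 := by
      ext t
      simp
    rw [h2]
    exact h1
  rw [ae_all_iff]
  intro x
  rw [ae_all_iff]
  intro i
  rw [ae_all_iff]
  intro n
  have e1 : MeasurePreserving (Function.eval x : Config d → Cell d) (law d ν) (cellLaw d ν) :=
    measurePreserving_eval_infinitePi (fun _ : Site d => cellLaw d ν) x
  have e2 : MeasurePreserving (Prod.snd : Cell d → (ℕ → Path d)) (cellLaw d ν)
      (Measure.infinitePi (fun _ : ℕ => pathLaw d)) := measurePreserving_snd
  have e3 : MeasurePreserving (Function.eval i : (ℕ → Path d) → Path d)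
      (Measure.infinitePi (fun _ : ℕ => pathLaw d)) (pathLaw d) :=
    measurePreserving_eval_infinitePi (fun _ : ℕ => pathLaw d) i
  have e4 : MeasurePreserving (Function.eval n : Path d → ℝ × (Fin d × Bool))
      (pathLaw d) (pairLaw d) := measurePreserving_eval_infinitePi (fun _ : ℕ => pairLaw d) n
  have e5 : MeasurePreserving (Prod.fst : ℝ × (Fin d × Bool) → ℝ) (pairLaw d) (expMeasure 1) :=
    measurePreserving_fst
  exact ((((e5.comp e4).comp e3).comp e2).comp e1).quasiMeasurePreserving.ae h0

end H949.FH
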