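import Pool.Agent.H949.FH.Defs

set_option autoImplicit false

open MeasureTheory ProbabilityTheory Filter Topology
open scoped ENNReal Pointwise

namespace H949.FH

namespace TypesAux

theorem rate_one (b : Bool) : rate 1 b = 1 := by
  unfold rate
  split_ifs <;> simp

theorem le_step {d : ℕ} {z : Site d} {ω : Config d} {t : Site d → ℝ≥0∞}
    {c : Site d → Bool} (h : IsOutcome 1 z ω t c) (x y : Site d) :
    t x ≤ t y + reach (ω y) (x - y) := by
  have h1 := h.le x y
  rwa [rate_one, div_one] at h1

theorem le_along {d : ℕ} {z : Site d} {ω : Config d} {t : Site d → ℝ≥0∞}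
    {c : Site d → Bool} (h : IsOutcome 1 z ω t c) (l : List (Site d)) (x y : Site d)
    (hl : (x :: l).getLast (List.cons_ne_nil x l) = y) : t y ≤ t x + along ω x l := by
  induction l generalizing x with
  | nil =>
    simp only [List.getLast_singleton] at hl
    subst hl
    exact le_self_add
  | cons a l ih =>
    rw [List.getLast_cons (List.cons_ne_nil a l)] at hl
    have h1 := ih a hl
    have h2 := le_step h a x
    calc t y ≤ t a + along ω a l := h1
      _ ≤ t x + reach (ω x) (a - x) + along ω a l := by gcongr
      _ = t x + along ω x (a :: l) := by rw [along, add_assoc]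

theorem le_passage {d : ℕ} {z : Site d} {ω : Config d} {t : Site d → ℝ≥0∞}
    {c : Site d → Bool} (h : IsOutcome 1 z ω t c) (x y : Site d) (hx : t x = 0) :
    t y ≤ passage ω x y := by
  unfold passage
  refine le_iInf₂ fun l hl => ?_
  have h1 := le_along h l x y hl
  rwa [hx, zero_add] at h1

theorem along_append {d : ℕ} (ω : Config d) (y : Site d) (l : List (Site d)) (s : Site d) :
    along ω s (l ++ [y]) = along ω s l +
      reach (ω ((s :: l).getLast (List.cons_ne_nil s l)))
        (y - (s :: l).getLast (List.cons_ne_nil s l)) := by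
  induction l generalizing s with
  | nil => simp [along]
  | cons a l ih =>
    rw [List.cons_append, along, along, ih a, List.getLast_cons (List.cons_ne_nil a l), add_assoc]

theorem passage_self {d : ℕ} (ω : Config d) (x : Site d) : passage ω x x ≤ 0 := by
  unfold passage
  refine iInf₂_le_of_le [] (by simp) ?_
  simp [along]

theorem passage_step {d : ℕ} (ω : Config d) (s y y' : Site d) :
    passage ω s y ≤ passage ω s y' + reach (ω y') (y - y') := by
  have h : passage ω s y' + reach (ω y') (y - y') = ⨅ (l : List (Site d))
      (_ : (s :: l).getLast (List.cons_ne_nil s l) = y'),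
        (along ω s l + reach (ω y') (y - y')) := by
    unfold passage
    simp only [ENNReal.iInf_add]
  rw [h]
  refine le_iInf₂ fun l hl => ?_
  unfold passage
  refine iInf₂_le_of_le (l ++ [y]) ?_ ?_
  · simp
  · rw [along_append, hl]

theorem main {d : ℕ} {z : Site d} {ω : Config d} {t : Site d → ℝ≥0∞}
    {c : Site d → Bool} (h : IsOutcome 1 z ω t c) (n : ℕ) : ∀ y : Site d,
    {x | t x < t y}.ncard = n → t y ≠ ∞ → passage ω (if c y then z else 0) y ≤ t y := by
  induction n using Nat.strong_induction_on with
  | _ n ih =>
    intro y hn hy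
    by_cases h0 : y = 0
    · subst h0
      rw [h.zero.2]
      exact (passage_self ω _).trans bot_le
    by_cases hz : y = z
    · subst hz
      rw [h.start.2]
      exact (passage_self ω _).trans bot_le
    obtain ⟨y', h1, h2, h3⟩ := h.cause y h0 hz hy
    rw [rate_one, div_one] at h2
    have hfin : {x | t x < t y}.Finite := by
      refine (h.locFinite (t y).toReal).subset fun x hx => ?_
      change t x ≤ ENNReal.ofReal (t y).toReal
      rw [ENNReal.ofReal_toReal hy]
      exact le_of_lt hx
    have hlt : {x | t x < t y'}.ncard < n := by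
      rw [← hn]
      refine Set.ncard_lt_ncard ?_ hfin
      refine ⟨fun x hx => lt_trans hx h1, fun hs => ?_⟩
      have h4 : t y' < t y' := hs h1
      exact lt_irrefl _ h4
    have h5 := ih _ hlt y' rfl (ne_top_of_lt h1)
    rw [h3, h2]
    calc passage ω (if c y' then z else 0) y
        ≤ passage ω (if c y' then z else 0) y' + reach (ω y') (y - y') := passage_step ω _ y y'
      _ ≤ t y' + reach (ω y') (y - y') := by gcongr

end TypesAux

open TypesAux in
/-- Deterministic. In the two-type process with equal rates the type of a site is the type of the nearer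
source. PROOF. `rate 1 c = 1` for both types (so the division does nothing).
(1) `t y ≤ passage ω 0 y` and `t y ≤ passage ω z y`: for every chain `l` from `x` to `y`, `t y ≤ t x + along ω x l`, by induction on
`l` with `h.le`; take `x = 0` and `x = z` (`t = 0` there).
(2) If `t y ≠ ∞` and `c y = false` then `passage ω 0 y ≤ t y`; if `t y ≠ ∞` and `c y = true` then `passage ω z y ≤ t y`. By strong induction
on the number of `x` with `t x < t y` (finite by `h.locFinite`, `t y ≠ ∞`; for the `y'` of `cause` this set is strictly smaller): if
`y = 0`: `c = false`, `passage ω 0 0 ≤ 0` (chain `[]`); `y = z`: `c = true`, similarly (`z ≠ 0`, so no conflict). Otherwise take `y'` from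
`h.cause y`: `t y = t y' + reach (ω y') (y - y')`, `c y' = c y`, and
`passage ω s y ≤ passage ω s y' + reach (ω y') (y - y')` (append `y` to the chains), `s = 0` or `z`.
(3) If `passage ω z y < passage ω 0 y` then `t y ≤ passage ω z y < passage ω 0 y`, so `t y ≠ ∞`, and `c y = false` would give
`passage ω 0 y ≤ t y`, a contradiction. The same for the other case. -/
theorem types {d : ℕ} {z : Site d} (hz : z ≠ 0) {ω : Config d} {t : Site d → ℝ≥0∞}
    {c : Site d → Bool} (h : IsOutcome 1 z ω t c) (y : Site d) :
    (passage ω z y < passage ω 0 y → t y ≠ ∞ ∧ c y = true) ∧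
    (passage ω 0 y < passage ω z y → t y ≠ ∞ ∧ c y = false) := by
  have _ := hz
  have h0 : t y ≤ passage ω 0 y := le_passage h 0 y h.zero.1
  have h1 : t y ≤ passage ω z y := le_passage h z y h.start.1
  constructor
  · intro hlt
    have hy : t y ≠ ∞ := ne_top_of_lt (lt_of_le_of_lt h1 hlt)
    refine ⟨hy, ?_⟩
    by_contra hc
    have h2 := main h _ y rfl hy
    simp only [Bool.not_eq_true] at hc
    rw [hc] at h2
    exact absurd (lt_of_le_of_lt h1 hlt) (not_lt.2 h2)
  · intro hlt
    have hy : t y ≠ ∞ := ne_top_of_lt (lt_of_le_of_lt h0 hlt)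
    refine ⟨hy, ?_⟩
    by_contra hc
    have h2 := main h _ y rfl hy
    simp only [Bool.not_eq_false] at hc
    rw [hc] at h2
    exact absurd (lt_of_le_of_lt h0 hlt) (not_lt.2 h2)

end H949.FH
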