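import Pool.Agent.H949.FH.Defs
import Pool.Agent.H949.FH.Arr
import Pool.Agent.H949.FH.Inv
import Pool.Agent.H949.FH.Axis
import Pool.Agent.H949.FH.Types
import Pool.Agent.H949.FH.Exist
set_option autoImplicit false

open MeasureTheory ProbabilityTheory Filter Topology
open scoped ENNReal Pointwise

namespace H949.FH

namespace FIN

theorem ax_add (d : ℕ) [NeZero d] (i n : ℤ) : ax d (i + n) = ax d i + ax d n := by
  unfold ax
  rw [← Pi.single_add]

theorem ax_zero (d : ℕ) [NeZero d] : ax d 0 = 0 := Pi.single_zero (0 : Fin d)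

theorem ax_inj (d : ℕ) [NeZero d] : Function.Injective (ax d) := fun _ _ h =>
  Pi.single_injective (0 : Fin d) h

/-- the event that the point `i e₁` is occupied -/
def Oc (d : ℕ) [NeZero d] (i : ℤ) : Set (Config d) := {ω | 1 ≤ (ω (ax d i)).1}

theorem meas_Oc (d : ℕ) [NeZero d] (i : ℤ) : MeasurableSet (Oc d i) :=
  measurableSet_le measurable_const (measurable_fst.comp (measurable_pi_apply (ax d i)))

theorem meas_freq {Ω : Type*} [MeasurableSpace Ω] (A : ℕ → Set Ω) (hA : ∀ n, MeasurableSet (A n)) :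
    MeasurableSet {ω | ∃ᶠ n : ℕ in atTop, ω ∈ A n} := by
  have e : {ω | ∃ᶠ n : ℕ in atTop, ω ∈ A n} = ⋂ N : ℕ, ⋃ n : ℕ, ⋃ _ : N ≤ n, A n := by
    ext ω
    simp only [Set.mem_ofPred_eq, Filter.frequently_atTop, Set.mem_iInter, Set.mem_iUnion,
      exists_prop]
  rw [e]
  exact MeasurableSet.iInter fun N => MeasurableSet.iUnion fun n => MeasurableSet.iUnion fun _ => hA n

theorem fin_shift {d : ℕ} (z : Site d) (ω : Config d) (c : ℝ≥0∞)
    (h : {y | passage (shift z ω) 0 y ≤ c}.Finite) : {y | passage ω z y ≤ c}.Finite := by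
  refine (h.image fun y => y + z).subset fun y hy => ⟨y - z, ?_, sub_add_cancel y z⟩
  show passage (shift z ω) 0 (y - z) ≤ c
  rw [passage_shift, zero_add, sub_add_cancel]
  exact hy

theorem law_one (d : ℕ) [NeZero d] (ν : Measure ℕ) [IsProbabilityMeasure ν] :
    law d ν (Oc d 0) = ν {n | 1 ≤ n} := by
  have h1 := law_occupied ν ({ax d 0} : Finset (Site d))
  rw [Finset.card_singleton, pow_one] at h1
  rw [← h1]
  congr 1
  ext ω
  simp only [Oc, Set.mem_ofPred_eq, Finset.mem_singleton, forall_eq]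

theorem law_four (d : ℕ) [NeZero d] (ν : Measure ℕ) [IsProbabilityMeasure ν] (m n : ℕ)
    (hm : 0 < m) (hn : m < n) :
    law d ν (Oc d 0 ∩ Oc d m ∩ Oc d n ∩ Oc d (-(n : ℤ))) = law d ν (Oc d 0) ^ 4 := by
  classical
  have n1 : ax d (0 : ℤ) ≠ ax d (m : ℤ) := fun h => by
    have := ax_inj d h
    omega
  have n2 : ax d (0 : ℤ) ≠ ax d (n : ℤ) := fun h => by
    have := ax_inj d h
    omega
  have n3 : ax d (0 : ℤ) ≠ ax d (-(n : ℤ)) := fun h => by
    have := ax_inj d h
    omega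
  have n4 : ax d (m : ℤ) ≠ ax d (n : ℤ) := fun h => by
    have := ax_inj d h
    omega
  have n5 : ax d (m : ℤ) ≠ ax d (-(n : ℤ)) := fun h => by
    have := ax_inj d h
    omega
  have n6 : ax d (n : ℤ) ≠ ax d (-(n : ℤ)) := fun h => by
    have := ax_inj d h
    omega
  have h1 := law_occupied ν ({ax d 0, ax d m, ax d n, ax d (-(n : ℤ))} : Finset (Site d))
  have hc : ({ax d 0, ax d m, ax d n, ax d (-(n : ℤ))} : Finset (Site d)).card = 4 := by
    rw [Finset.card_insert_of_notMem, Finset.card_insert_of_notMem, Finset.card_insert_of_notMem,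
      Finset.card_singleton]
    · rw [Finset.mem_singleton]
      exact n6
    · rw [Finset.mem_insert, Finset.mem_singleton, not_or]
      exact ⟨n4, n5⟩
    · rw [Finset.mem_insert, Finset.mem_insert, Finset.mem_singleton, not_or, not_or]
      exact ⟨n1, n2, n3⟩
  rw [hc] at h1
  rw [law_one, ← h1]
  congr 1
  ext ω
  simp only [Oc, Set.mem_inter_iff, Set.mem_ofPred_eq, Finset.mem_insert, Finset.mem_singleton,
    forall_eq_or_imp, forall_eq, and_assoc]

theorem law_ne (d : ℕ) [NeZero d] (ν : Measure ℕ) [IsProbabilityMeasure ν] (hν : ν {0} ≠ 1) :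
    law d ν (Oc d 0) ≠ 0 := by
  rw [law_one]
  intro h
  apply hν
  have e : {n : ℕ | 1 ≤ n} = ({0} : Set ℕ)ᶜ := by
    ext n
    simp only [Set.mem_ofPred_eq, Set.mem_compl_iff, Set.mem_singleton_iff]
    omega
  rw [e] at h
  exact (prob_compl_eq_zero_iff (MeasurableSet.singleton 0)).1 h

end FIN

open FIN in
/-- PROOF. Apply `array` to `P = law d ν`, `θ n = shift (ax d n)` (`law_shift`), `T i k ω = passage ω (ax d i) (ax d k)`
(`measurable_passage`, `passage_tri`, `passage_shift` and `ax d (i + n) = ax d i + ax d n`),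
`O i = {ω | 1 ≤ (ω (ax d i)).1}`, `hind` from `law_occupied` (four distinct points `ax d 0, ax d m, ax d n, ax d (-n)` for `0 < m < n`; and
`F` a singleton), `P (O 0) = ν {n | 1 ≤ n} ≠ 0` from `hν`, `μ, μ'` from `axis_limit`. Let `z = ax d m ≠ 0` and let `E₀` be the set of
`array`; it has positive probability, and almost every `ω ∈ E₀` satisfies: `law_posTime`; local finiteness for `passage ω 0`
(`axis_limit`, as `ω ∈ O 0`), and for `passage ω z` (`axis_limit` for `shift z ω`: `law_shift` is quasi measure preserving; `ω ∈ O m`;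
`passage (shift z ω) 0 y = passage ω z (y + z)`). So there is a measurable `E ⊆ E₀` of positive measure on which all this holds
(`E₀` is measurable, or null-measurable sets: `MeasureTheory.exists_measurable_superset_of_null` for the exceptional null set and
`toMeasurable`-type arguments; `E₀` is measurable as a countable limsup of measurable sets). For `ω ∈ E`: the outcome exists
(`exists_outcome`); for every outcome, by `types` each of the infinitely many `n` with `ω ∈ O n`,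
`passage ω z (ax d n) < passage ω 0 (ax d n)` gives a point of the second set and `ax d` is injective
(`Nat.frequently_atTop_iff_infinite`, `Set.Infinite.image`), and the points `ax d (-n)` give the first set. -/
theorem same_rate (d : ℕ) [NeZero d] (ν : Measure ℕ) [IsProbabilityMeasure ν] (hν : ν {0} ≠ 1)
    (h : BoundedShape d ν) : ∃ z : Site d, z ≠ 0 ∧ ∃ E : Set (Config d), MeasurableSet E ∧
      0 < law d ν E ∧ ∀ ω ∈ E,
        (∃ (t : Site d → ℝ≥0∞) (c : Site d → Bool), IsOutcome 1 z ω t c) ∧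
        ∀ (t : Site d → ℝ≥0∞) (c : Site d → Bool), IsOutcome 1 z ω t c →
          {x | 1 ≤ (ω x).1 ∧ t x ≠ ∞ ∧ c x = false}.Infinite ∧
          {x | 1 ≤ (ω x).1 ∧ t x ≠ ∞ ∧ c x = true}.Infinite := by
  obtain ⟨μ, μ', hμ, hμ', hax⟩ := axis_limit ν hν h
  obtain ⟨m, hm, hpos⟩ := array (law d ν) (fun n => shift (ax d n)) (fun n => law_shift ν (ax d n))
    (fun i k ω => passage ω (ax d i) (ax d k)) (fun i k => measurable_passage (ax d i) (ax d k))
    (Oc d) (meas_Oc d) (fun i j k ω => passage_tri ω (ax d i) (ax d j) (ax d k))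
    (fun n i k ω => by
      show passage (shift (ax d n) ω) (ax d i) (ax d k) = passage ω (ax d (i + n)) (ax d (k + n))
      rw [passage_shift, ax_add, ax_add])
    (fun n i ω => by
      show 1 ≤ (ω (ax d i + ax d n)).1 ↔ 1 ≤ (ω (ax d (i + n))).1
      rw [ax_add])
    (fun m n hm hn => law_four d ν m n hm hn) (law_ne d ν hν) hμ hμ'
    (by
      filter_upwards [hax] with ω hω h0
      have h0' : 1 ≤ (ω (ax d 0)).1 := h0
      rw [ax_zero] at h0'
      show ∀ δ : ℝ, 0 < δ → ∃ K : ℕ, ∀ k : ℕ, K ≤ k →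
        ENNReal.ofReal ((1 - δ) * k * μ) ≤ passage ω (ax d 0) (ax d k) ∧
          passage ω (ax d 0) (ax d k) ≤ ENNReal.ofReal ((1 + δ) * k * μ)
      rw [ax_zero]
      exact (hω h0').1)
    (by
      filter_upwards [hax] with ω hω h0
      have h0' : 1 ≤ (ω (ax d 0)).1 := h0
      rw [ax_zero] at h0'
      show ∀ δ : ℝ, 0 < δ → ∃ K : ℕ, ∀ k : ℕ, K ≤ k →
        ENNReal.ofReal ((1 - δ) * k * μ') ≤ passage ω (ax d 0) (ax d (-(k : ℤ))) ∧
          passage ω (ax d 0) (ax d (-(k : ℤ))) ≤ ENNReal.ofReal ((1 + δ) * k * μ')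
      rw [ax_zero]
      exact (hω h0').2.1)
  have hz : ax d (m : ℤ) ≠ 0 := by
    intro hc
    rw [← ax_zero d] at hc
    have := ax_inj d hc
    omega
  obtain ⟨E₀, hE₀⟩ : ∃ E₀ : Set (Config d), E₀ = {ω | ω ∈ Oc d 0 ∧ ω ∈ Oc d m ∧
      (∃ᶠ n : ℕ in atTop, ω ∈ Oc d n ∧ passage ω (ax d m) (ax d n) < passage ω (ax d 0) (ax d n)) ∧
      (∃ᶠ n : ℕ in atTop, ω ∈ Oc d (-(n : ℤ)) ∧
        passage ω (ax d 0) (ax d (-(n : ℤ))) < passage ω (ax d m) (ax d (-(n : ℤ))))} := ⟨_, rfl⟩
  have hpos' : 0 < law d ν E₀ := by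
    rw [hE₀]
    exact hpos
  have hmE₀ : MeasurableSet E₀ := by
    rw [hE₀]
    refine (meas_Oc d 0).inter ((meas_Oc d m).inter (MeasurableSet.inter ?_ ?_))
    · exact meas_freq (fun n => {ω | ω ∈ Oc d n ∧
        passage ω (ax d m) (ax d n) < passage ω (ax d 0) (ax d n)}) fun n =>
        (meas_Oc d n).inter (measurableSet_lt (measurable_passage _ _) (measurable_passage _ _))
    · exact meas_freq (fun n => {ω | ω ∈ Oc d (-(n : ℤ)) ∧
        passage ω (ax d 0) (ax d (-(n : ℤ))) < passage ω (ax d m) (ax d (-(n : ℤ)))}) fun n =>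
        (meas_Oc d _).inter (measurableSet_lt (measurable_passage _ _) (measurable_passage _ _))
  have hsh := (law_shift ν (ax d (m : ℤ))).quasiMeasurePreserving.ae hax
  have hae : ∀ᵐ ω ∂law d ν, (∀ x i n, 0 < (((ω x).2 i) n).1) ∧
      (1 ≤ (ω 0).1 → ∀ T : ℝ, {y | passage ω 0 y ≤ ENNReal.ofReal T}.Finite) ∧
      (1 ≤ (ω (ax d (m : ℤ))).1 → ∀ T : ℝ,
        {y | passage ω (ax d (m : ℤ)) y ≤ ENNReal.ofReal T}.Finite) := by
    filter_upwards [law_posTime (d := d) ν, hax, hsh] with ω h1 h2 h3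
    refine ⟨h1, fun h0 => (h2 h0).2.2, fun h0 T => fin_shift _ _ _ ?_⟩
    refine (h3 ?_).2.2 T
    show 1 ≤ (ω (0 + ax d (m : ℤ))).1
    rw [zero_add]
    exact h0
  obtain ⟨N, hN⟩ : ∃ N : Set (Config d), N = toMeasurable (law d ν)
      {ω | ¬ ((∀ x i n, 0 < (((ω x).2 i) n).1) ∧
      (1 ≤ (ω 0).1 → ∀ T : ℝ, {y | passage ω 0 y ≤ ENNReal.ofReal T}.Finite) ∧
      (1 ≤ (ω (ax d (m : ℤ))).1 → ∀ T : ℝ,
        {y | passage ω (ax d (m : ℤ)) y ≤ ENNReal.ofReal T}.Finite))} := ⟨_, rfl⟩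
  have hN0 : law d ν N = 0 := by
    rw [hN, measure_toMeasurable]
    exact hae
  have hNm : MeasurableSet N := by
    rw [hN]
    exact measurableSet_toMeasurable _ _
  refine ⟨ax d (m : ℤ), hz, E₀ \ N, hmE₀.diff hNm, ?_, fun ω hω => ?_⟩
  · rw [measure_sdiff_null hN0]
    exact hpos'
  · obtain ⟨hω0, hωN⟩ := hω
    have hgood : (∀ x i n, 0 < (((ω x).2 i) n).1) ∧
        (1 ≤ (ω 0).1 → ∀ T : ℝ, {y | passage ω 0 y ≤ ENNReal.ofReal T}.Finite) ∧
        (1 ≤ (ω (ax d (m : ℤ))).1 → ∀ T : ℝ,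
          {y | passage ω (ax d (m : ℤ)) y ≤ ENNReal.ofReal T}.Finite) := by
      by_contra hcon
      apply hωN
      rw [hN]
      exact subset_toMeasurable _ _ hcon
    obtain ⟨g1, g2, g3⟩ := hgood
    rw [hE₀] at hω0
    obtain ⟨e1, e2, e3, e4⟩ := hω0
    have e1' : 1 ≤ (ω 0).1 := by
      have : 1 ≤ (ω (ax d 0)).1 := e1
      rwa [ax_zero] at this
    have e2' : 1 ≤ (ω (ax d (m : ℤ))).1 := e2
    refine ⟨exists_outcome hz g1 (g2 e1') (g3 e2'), fun t c hout => ⟨?_, ?_⟩⟩
    · have i1 := Nat.frequently_atTop_iff_infinite.1 e4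
      have inj : Function.Injective fun n : ℕ => ax d (-(n : ℤ)) := fun a b hab => by
        have := ax_inj d hab
        omega
      refine (i1.image inj.injOn).mono ?_
      rintro x ⟨n, ⟨hn1, hn2⟩, rfl⟩
      rw [ax_zero] at hn2
      obtain ⟨ht, hc⟩ := (types hz hout (ax d (-(n : ℤ)))).2 hn2
      exact ⟨hn1, ht, hc⟩
    · have i1 := Nat.frequently_atTop_iff_infinite.1 e3
      have inj : Function.Injective fun n : ℕ => ax d (n : ℤ) := fun a b hab => by
        have := ax_inj d hab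
        omega
      refine (i1.image inj.injOn).mono ?_
      rintro x ⟨n, ⟨hn1, hn2⟩, rfl⟩
      rw [ax_zero] at hn2
      obtain ⟨ht, hc⟩ := (types hz hout (ax d (n : ℤ))).1 hn2
      exact ⟨hn1, ht, hc⟩

end H949.FH
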