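import Pool.Agent.H949.FH.Defs
import Pool.Agent.H949.FG.Final

set_option autoImplicit false

open MeasureTheory ProbabilityTheory Filter Topology
open scoped ENNReal Pointwise

namespace H949.FH

/-- the walk of a path in dimension one -/
def line_phi (p : Path 1) : H949.FG.Walk := fun n => ((p n).1, (p n).2.2)

/-- the walks of the particles with index zero -/
def line_X (x : ℤ) (ω : Config 1) : H949.FG.Walk := line_phi ((ω (fun _ => x)).2 0)

lemma line_meas_phi : Measurable line_phi := by
  unfold line_phi
  refine measurable_pi_lambda _ fun n => ?_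
  have h : Measurable fun q : ℝ × (Fin 1 × Bool) => (q.1, q.2.2) :=
    measurable_fst.prodMk (measurable_snd.comp measurable_snd)
  exact h.comp (measurable_pi_apply n)

lemma line_dir : (dirLaw 1).map Prod.snd = H949.FG.coin := by
  refine Measure.ext_of_singleton fun b => ?_
  rw [Measure.map_apply measurable_snd (measurableSet_singleton b)]
  have h1 : (Prod.snd ⁻¹' {b} : Set (Fin 1 × Bool)) = {(0, b)} := by
    ext ⟨i, c⟩
    simp only [Set.mem_preimage, Set.mem_singleton_iff, Prod.mk.injEq]
    constructor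
    · intro h
      exact ⟨Subsingleton.elim _ _, h⟩
    · exact fun h => h.2
  rw [h1]
  unfold dirLaw H949.FG.coin
  rw [PMF.toMeasure_apply_singleton _ _ (measurableSet_singleton _), PMF.uniformOfFintype_apply]
  cases b <;> simp

lemma line_pair : (pairLaw 1).map (Prod.map id Prod.snd) = H949.FG.pairLaw := by
  unfold pairLaw H949.FG.pairLaw
  rw [← Measure.map_prod_map _ _ measurable_id measurable_snd, Measure.map_id, line_dir]

lemma line_path : (pathLaw 1).map line_phi = H949.FG.walkLaw := by
  unfold pathLaw H949.FG.walkLaw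
  have h := Measure.infinitePi_map_pi (μ := fun _ : ℕ => pairLaw 1)
    (f := fun _ : ℕ => (Prod.map id Prod.snd : ℝ × (Fin 1 × Bool) → ℝ × Bool))
    (fun _ => measurable_id.prodMap measurable_snd)
  simp only [line_pair] at h
  exact h

lemma line_system : H949.FG.IsFrogSystem (law 1 (Measure.dirac 1)) line_X := by
  have m0 : Measurable fun c : Cell 1 => line_phi (c.2 0) :=
    line_meas_phi.comp ((measurable_pi_apply 0).comp measurable_snd)
  refine ⟨fun x => m0.comp (measurable_pi_apply _), fun x => ?_, ?_⟩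
  · have h1 : (law 1 (Measure.dirac 1)).map (fun ω : Config 1 => ω (fun _ => x)) =
        cellLaw 1 (Measure.dirac 1) :=
      Measure.infinitePi_map_eval (fun _ : Site 1 => cellLaw 1 (Measure.dirac 1)) (fun _ => x)
    have h2 : (law 1 (Measure.dirac 1)).map (line_X x) =
        ((law 1 (Measure.dirac 1)).map (fun ω : Config 1 => ω (fun _ => x))).map
          (fun c : Cell 1 => line_phi (c.2 0)) :=
      (Measure.map_map (μ := law 1 (Measure.dirac 1)) m0
        (measurable_pi_apply (fun _ => x : Site 1))).symm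
    have h3 : (cellLaw 1 (Measure.dirac 1)).map (fun c : Cell 1 => line_phi (c.2 0)) =
        (((cellLaw 1 (Measure.dirac 1)).map Prod.snd).map (fun f : ℕ → Path 1 => f 0)).map
          line_phi := by
      rw [Measure.map_map (measurable_pi_apply 0) measurable_snd,
        Measure.map_map line_meas_phi ((measurable_pi_apply 0).comp measurable_snd)]
      rfl
    have h4 : (cellLaw 1 (Measure.dirac 1)).map Prod.snd =
        Measure.infinitePi (fun _ : ℕ => pathLaw 1) := by
      unfold cellLaw
      rw [Measure.map_snd_prod, measure_univ, one_smul]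
    rw [h2, h1, h3, h4, Measure.infinitePi_map_eval (fun _ : ℕ => pathLaw 1) 0, line_path]
  · have h1 : iIndepFun (fun (s : Site 1) (ω : Config 1) => line_phi ((ω s).2 0))
        (law 1 (Measure.dirac 1)) :=
      iIndepFun_infinitePi (P := fun _ : Site 1 => cellLaw 1 (Measure.dirac 1))
        (X := fun _ (c : Cell 1) => line_phi (c.2 0)) (fun _ => m0)
    exact h1.precomp (g := fun x : ℤ => (fun _ => x : Site 1))
      (fun a b h => congrFun h 0)

lemma line_site (s : Site 1) : (fun _ => s 0 : Site 1) = s :=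
  funext fun i => congrArg s (Subsingleton.elim 0 i)

lemma line_pos (w : Path 1) (n : ℕ) : pos w n 0 = H949.FG.pos (line_phi w) n := by
  unfold pos H949.FG.pos
  rw [Finset.sum_apply]
  refine Finset.sum_congr rfl fun i _ => ?_
  unfold stp H949.FG.stp line_phi
  rw [Subsingleton.elim (w i).2.1 0, Pi.single_eq_same]

lemma line_hit (w : Path 1) (k : Site 1) : hit w k = H949.FG.hit (line_phi w) (k 0) := by
  unfold hit H949.FG.hit
  refine iInf_congr fun n => ?_
  have h : pos w n = k ↔ H949.FG.pos (line_phi w) n = k 0 := by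
    rw [← line_pos]
    constructor
    · intro h
      rw [h]
    · intro h
      rw [← line_site (pos w n), h, line_site]
  have h2 : tim w n = H949.FG.tim (line_phi w) n := rfl
  rw [h2]
  simp only [h]

lemma line_reach {ω : Config 1} (hω : ∀ s, (ω s).1 = 1) (s k : Site 1) :
    reach (ω s) k = H949.FG.hit (line_X (s 0) ω) (k 0) := by
  unfold reach line_X
  rw [line_site, ← line_hit]
  apply le_antisymm
  · exact iInf₂_le 0 (by rw [hω]; norm_num)
  · refine le_iInf₂ fun i hi => ?_
    rw [hω, Nat.lt_one_iff] at hi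
    rw [hi]

lemma line_to {β : ℝ} {ω : Config 1} (hω : ∀ s, (ω s).1 = 1) {t : Site 1 → ℝ≥0∞}
    {c : Site 1 → Bool} (h : IsOutcome β (fun _ => 1 : Site 1) ω t c) :
    H949.FG.IsOutcome β 1 (fun x => line_X x ω) (fun x => t (fun _ => x))
      (fun x => c (fun _ => x)) where
  zero := h.zero
  start := h.start
  le x y := by
    have h1 := h.le (fun _ => x) (fun _ => y)
    rw [line_reach hω] at h1
    exact h1
  cause x hx0 hx1 hxt := by
    obtain ⟨y, h1, h2, h3⟩ := h.cause (fun _ => x) (fun h0 => hx0 (congrFun h0 0))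
      (fun h0 => hx1 (congrFun h0 0)) hxt
    rw [line_reach hω] at h2
    refine ⟨y 0, ?_, ?_, ?_⟩
    · show t (fun _ => y 0) < _
      rw [line_site]
      exact h1
    · show _ = t (fun _ => y 0) + H949.FG.hit _ (x - y 0) / H949.FG.rate β (c (fun _ => y 0))
      rw [line_site]
      exact h2
    · show _ = c (fun _ => y 0)
      rw [line_site]
      exact h3
  locFinite T := by
    have h1 := h.locFinite T
    exact h1.preimage (f := fun x : ℤ => (fun _ => x : Site 1))
      (fun a _ b _ h => congrFun h 0)

lemma line_from {β : ℝ} {ω : Config 1} (hω : ∀ s, (ω s).1 = 1) {t : ℤ → ℝ≥0∞}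
    {c : ℤ → Bool} (h : H949.FG.IsOutcome β 1 (fun x => line_X x ω) t c) :
    IsOutcome β (fun _ => 1 : Site 1) ω (fun s => t (s 0)) (fun s => c (s 0)) where
  zero := h.zero
  start := h.start
  le x y := by
    rw [line_reach hω]
    exact h.le (x 0) (y 0)
  cause x hx0 hx1 hxt := by
    obtain ⟨y, h1, h2, h3⟩ := h.cause (x 0) (fun h0 => hx0 (by rw [← line_site x, h0]; rfl))
      (fun h0 => hx1 (by rw [← line_site x, h0])) hxt
    refine ⟨fun _ => y, h1, ?_, h3⟩
    rw [line_reach hω]
    exact h2
  locFinite T := by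
    have h1 := h.locFinite T
    exact h1.preimage (f := fun s : Site 1 => s 0)
      (fun a _ b _ h => by rw [← line_site a, ← line_site b]; exact funext fun _ => h)

lemma line_full : MeasurableSet {ω : Config 1 | ∀ s, (ω s).1 = 1} ∧
    law 1 (Measure.dirac 1) {ω : Config 1 | ∀ s, (ω s).1 = 1}ᶜ = 0 := by
  have hm : ∀ s : Site 1, MeasurableSet {ω : Config 1 | (ω s).1 = 1} := fun s =>
    (measurable_fst.comp (measurable_pi_apply s)) (measurableSet_singleton 1)
  have he : {ω : Config 1 | ∀ s, (ω s).1 = 1} = ⋂ s, {ω : Config 1 | (ω s).1 = 1} := by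
    ext ω
    simp
  constructor
  · rw [he]
    exact MeasurableSet.iInter hm
  · rw [he, Set.compl_iInter, measure_iUnion_null_iff]
    intro s
    have h1 : (law 1 (Measure.dirac 1)).map (fun ω : Config 1 => ω s) =
        cellLaw 1 (Measure.dirac 1) :=
      Measure.infinitePi_map_eval (fun _ : Site 1 => cellLaw 1 (Measure.dirac 1)) s
    have hm2 : MeasurableSet {c : Cell 1 | c.1 = 1}ᶜ :=
      (measurable_fst (measurableSet_singleton 1)).compl
    have h2 : law 1 (Measure.dirac 1) {ω : Config 1 | (ω s).1 = 1}ᶜ =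
        cellLaw 1 (Measure.dirac 1) {c : Cell 1 | c.1 = 1}ᶜ := by
      rw [← h1, Measure.map_apply (measurable_pi_apply s) hm2]
      rfl
    have h3 : ({c : Cell 1 | c.1 = 1}ᶜ : Set (Cell 1)) = ({1}ᶜ : Set ℕ) ×ˢ Set.univ := by
      ext c
      simp
    rw [h2, h3]
    unfold cellLaw
    rw [Measure.prod_prod, Measure.dirac_apply' _ (measurableSet_singleton 1).compl]
    simp

/-- Transfer of the one-dimensional theorem `H949.FG.coexist` to the general model with `d = 1` and one particle per site.
PROOF. `z = fun _ => 1`. Let `X : ℤ → Config 1 → H949.FG.Walk`,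
`X x ω n = (((ω (fun _ => x)).2 0 n).1, ((ω (fun _ => x)).2 0 n).2.2)` (the path of the particle with index `0` at `x`).
(1) `H949.FG.IsFrogSystem (law 1 (Measure.dirac 1)) X`: measurability is clear; the law of `X x` is the image of `cellLaw`, i.e. of
`pathLaw 1` (second factor of the product, coordinate `0` of `Measure.infinitePi`), under the coordinatewise map
`p ↦ (p.1, p.2.2)` (`Measure.infinitePi_map_pi`), and `(expMeasure 1).prod (dirLaw 1)` is mapped to
`(expMeasure 1).prod H949.FG.coin` (`dirLaw 1` is uniform on the two elements of `Fin 1 × Bool`; compare the two measures on the singletons of `Bool`);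
independence: `iIndepFun_infinitePi` for the coordinates `ω x`, `x : Site 1`, precomposed with the injection `ℤ → Site 1`
(`iIndepFun.precomp`), and `iIndepFun.comp`.
(2) Almost every `ω` has `(ω x).1 = 1` for all `x`. For such `ω` and `x y : ℤ`: `H949.FH.stp` of `(0, b)` at `0` is `H949.FG.stp b`, so
`pos w n = k ↔ H949.FG.pos .. n = k 0` (functions on `Fin 1`), and
`reach (ω (fun _ => y)) (fun _ => k) = H949.FG.hit (X y ω) k`; the two `rate`s are the same.
(3) For such `ω`, `IsOutcome β z ω t c` is equivalent to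
`H949.FG.IsOutcome β 1 (fun x => X x ω) (fun x => t (fun _ => x)) (fun x => c (fun _ => x))` (every site is `fun _ => x` with
`x = site 0`; for the existence take `t y := t' (y 0)`, `c y := c' (y 0)`).
(4) `H949.FG.coexist hβ hβ1 (law 1 (dirac 1)) X` gives the event; intersect it with a measurable set of full measure on which
`(ω x).1 = 1` for all `x` (this set is measurable). The infinite sets: all `fun _ => -n` have type `false`, all `fun _ => 1 + n` type `true`. -/
theorem line {β : ℝ} (hβ : 0 < β) (hβ1 : β ≤ 1) : ∃ z : Site 1, z ≠ 0 ∧ ∃ E : Set (Config 1),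
    MeasurableSet E ∧ 0 < law 1 (Measure.dirac 1) E ∧ ∀ ω ∈ E,
      (∃ (t : Site 1 → ℝ≥0∞) (c : Site 1 → Bool), IsOutcome β z ω t c) ∧
      ∀ (t : Site 1 → ℝ≥0∞) (c : Site 1 → Bool), IsOutcome β z ω t c →
        {x | 1 ≤ (ω x).1 ∧ t x ≠ ∞ ∧ c x = false}.Infinite ∧
        {x | 1 ≤ (ω x).1 ∧ t x ≠ ∞ ∧ c x = true}.Infinite := by
  obtain ⟨E, hEm, hEp, hE⟩ := H949.FG.coexist hβ hβ1 (law 1 (Measure.dirac 1)) line_X line_system
  obtain ⟨hFm, hF0⟩ := line_full
  refine ⟨fun _ => 1, fun h => one_ne_zero (congrFun h 0), E ∩ {ω : Config 1 | ∀ s, (ω s).1 = 1},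
    hEm.inter hFm, ?_, ?_⟩
  · rw [measure_inter_conull hF0]
    exact hEp
  · rintro ω ⟨h1, h2⟩
    obtain ⟨⟨t, c, htc⟩, h3⟩ := hE ω h1
    refine ⟨⟨_, _, line_from h2 htc⟩, fun t c htc => ?_⟩
    obtain ⟨h4, h5, h6⟩ := h3 _ _ (line_to h2 htc)
    constructor
    · refine Set.infinite_of_injective_forall_mem (f := fun n : ℕ => (fun _ => -(n : ℤ) : Site 1))
        (fun a b h => ?_) (fun n => ?_)
      · have := congrFun h 0
        simpa using this
      · exact ⟨by rw [h2], h4 _, h5 _ (by omega)⟩
    · refine Set.infinite_of_injective_forall_mem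
        (f := fun n : ℕ => (fun _ => 1 + (n : ℤ) : Site 1)) (fun a b h => ?_) (fun n => ?_)
      · have := congrFun h 0
        simpa using this
      · exact ⟨by rw [h2], h4 _, h6 _ (by omega)⟩

end H949.FH
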